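import Mathlib

/-!
# The rank of the group of relations between half systems
-/

set_option autoImplicit false
set_option linter.unusedSectionVars false
set_option linter.unusedVariables false

namespace Pool.Agent.K4H34.DB

open Module nonZeroDivisors

/-- The integral solutions of a system of linear equations with rational coefficients have the same
rank as the rational solutions. -/
theorem finrank_ker_int {A B : Type} [Fintype A] (Ψ : (A → ℚ) →ₗ[ℚ] (B → ℚ))
    (M : Submodule ℤ (A → ℤ)) (hM : ∀ a : A → ℤ, a ∈ M ↔ Ψ (fun x => (a x : ℚ)) = 0) :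
    finrank ℤ M = finrank ℚ (LinearMap.ker Ψ) := by
  classical
  let f : M →ₗ[ℤ] LinearMap.ker Ψ :=
    { toFun := fun a => ⟨fun x => (a.1 x : ℚ), (hM a.1).1 a.2⟩
      map_add' := fun a b => by
        refine Subtype.ext (funext fun x => ?_)
        change (((a.1 x + b.1 x : ℤ)) : ℚ) = (a.1 x : ℚ) + (b.1 x : ℚ)
        push_cast
        rfl
      map_smul' := fun c a => by
        refine Subtype.ext (funext fun x => ?_)
        change ((c * a.1 x : ℤ) : ℚ) = c • (a.1 x : ℚ)
        rw [zsmul_eq_mul]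
        push_cast
        rfl }
  have hloc : IsLocalizedModule ℤ⁰ f := by
    refine ⟨fun s => ?_, fun y => ?_, fun {x y} h => ?_⟩
    · have hs : (s.1 : ℚ) ≠ 0 := by
        exact_mod_cast nonZeroDivisors.ne_zero s.2
      rw [Module.End.isUnit_iff]
      constructor
      · intro x y hxy
        have h1 : (s.1 : ℤ) • x = (s.1 : ℤ) • y := hxy
        rw [← Int.cast_smul_eq_zsmul ℚ, ← Int.cast_smul_eq_zsmul ℚ] at h1
        exact smul_right_injective _ hs h1
      · intro y
        refine ⟨((s.1 : ℚ)⁻¹) • y, ?_⟩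
        change (s.1 : ℤ) • ((s.1 : ℚ)⁻¹ • y) = y
        rw [← Int.cast_smul_eq_zsmul ℚ, smul_smul, mul_inv_cancel₀ hs, one_smul]
    · obtain ⟨s, hs⟩ := IsLocalization.exist_integer_multiples_of_finite ℤ⁰ y.1
      choose a ha using hs
      have ha' : ∀ x, (a x : ℚ) = (s.1 : ℚ) * y.1 x := by
        intro x
        have h1 := ha x
        rw [eq_intCast] at h1
        rw [h1, ← zsmul_eq_mul]
      have hmem : a ∈ M := by
        rw [hM]
        have h1 : (fun x => (a x : ℚ)) = (s.1 : ℚ) • y.1 := funext fun x => ha' x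
        rw [h1, map_smul, y.2, smul_zero]
      refine ⟨(⟨a, hmem⟩, s), ?_⟩
      refine Subtype.ext (funext fun x => ?_)
      change (s.1 : ℤ) • y.1 x = (a x : ℚ)
      rw [ha', zsmul_eq_mul]
    · refine ⟨1, ?_⟩
      rw [one_smul, one_smul]
      refine Subtype.ext (funext fun t => ?_)
      have h1 := congrFun (congrArg Subtype.val h) t
      have h2 : (x.1 t : ℚ) = (y.1 t : ℚ) := h1
      exact_mod_cast h2
  rw [← IsLocalizedModule.finrank_eq ℤ⁰ f le_rfl, ← IsLocalization.finrank_eq ℚ ℤ⁰ le_rfl]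

open Classical in
/-- The group of the odd integral relations between the sets in `P`. -/
def LamP {G : Type} [Fintype G] (P : Set (Set G)) : Submodule ℤ (Set G → ℤ) where
  carrier := {a | (∀ S ∉ P, a S = 0) ∧ (∀ S, a Sᶜ = - a S) ∧
    ∀ σ, ∑ S, a S * (if σ ∈ S then 1 else -1) = 0}
  zero_mem' := ⟨fun _ _ => rfl, fun _ => by simp, fun _ => by simp⟩
  add_mem' := by
    rintro a b ⟨h1, h2, h3⟩ ⟨h4, h5, h6⟩
    refine ⟨fun S hS => by rw [Pi.add_apply, h1 S hS, h4 S hS, add_zero],
      fun S => by rw [Pi.add_apply, Pi.add_apply, h2, h5]; ring, fun σ => ?_⟩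
    simp only [Pi.add_apply, add_mul, Finset.sum_add_distrib]
    rw [h3, h6, add_zero]
  smul_mem' := by
    rintro c a ⟨h1, h2, h3⟩
    refine ⟨fun S hS => by rw [Pi.smul_apply, h1 S hS, smul_zero],
      fun S => by rw [Pi.smul_apply, Pi.smul_apply, h2, smul_neg], fun σ => ?_⟩
    simp only [Pi.smul_apply, smul_eq_mul, mul_assoc]
    rw [← Finset.mul_sum, h3, mul_zero]

open Classical in
theorem mem_LamP {G : Type} [Fintype G] {P : Set (Set G)} {a : Set G → ℤ} :
    a ∈ LamP P ↔ (∀ S ∉ P, a S = 0) ∧ (∀ S, a Sᶜ = - a S) ∧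
      ∀ σ, ∑ S, a S * (if σ ∈ S then 1 else -1) = 0 := Iff.rfl

open Classical in
/-- **The rank of the relations.** -/
theorem finrank_LamP {G : Type} [Fintype G] [Nonempty G] (P : Set (Set G))
    (hP : ∀ S ∈ P, Sᶜ ∈ P) :
    finrank ℤ (LamP P) + finrank ℚ (Submodule.span ℚ
      ((fun (S : Set G) (σ : G) => if σ ∈ S then (1 : ℚ) else -1) '' P)) = P.ncard / 2 := by
  obtain ⟨g⟩ := ‹Nonempty G›
  let ε : Set G → (G → ℚ) := fun S σ => if σ ∈ S then (1 : ℚ) else -1
  let Q : Type := {S : Set G // S ∈ P ∧ g ∈ S}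
  let Ψ : (Q → ℚ) →ₗ[ℚ] (G → ℚ) :=
    { toFun := fun b σ => ∑ S : Q, b S * ε S.1 σ
      map_add' := fun b b' => by
        funext σ
        simp only [Pi.add_apply, add_mul, Finset.sum_add_distrib]
      map_smul' := fun c b => by
        funext σ
        simp only [Pi.smul_apply, smul_eq_mul, Finset.mul_sum, RingHom.id_apply, mul_assoc] }
  have hε1 : ∀ S σ, σ ∈ S → ε S σ = 1 := fun S σ h => if_pos h
  have hε2 : ∀ S σ, σ ∉ S → ε S σ = -1 := fun S σ h => if_neg h
  have hε : ∀ S σ, ε Sᶜ σ = - ε S σ := by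
    intro S σ
    by_cases h : σ ∈ S
    · rw [hε1 S σ h, hε2 Sᶜ σ (fun h' => h' h)]
    · rw [hε2 S σ h, hε1 Sᶜ σ h, neg_neg]
  have hPc : ∀ S, Sᶜ ∈ P ↔ S ∈ P := by
    intro S
    constructor
    · intro h
      have := hP _ h
      rwa [compl_compl] at this
    · exact hP S
  -- the sum over all sets
  have hsum : ∀ F : Set G → ℚ, (∀ S ∉ P, F S = 0) → (∀ S, F Sᶜ = F S) →
      ∑ S, F S = 2 * ∑ S : Q, F S.1 := by
    intro F h1 h2
    rw [← Finset.sum_filter_add_sum_filter_not Finset.univ (fun S : Set G => g ∈ S)]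
    have h3 : ∑ S ∈ Finset.univ.filter (fun S : Set G => ¬ g ∈ S), F S =
        ∑ S ∈ Finset.univ.filter (fun S : Set G => g ∈ S), F S := by
      refine Finset.sum_bij' (fun S _ => Sᶜ) (fun S _ => Sᶜ) ?_ ?_ ?_ ?_ ?_
      · intro S hS
        rw [Finset.mem_filter] at hS ⊢
        exact ⟨Finset.mem_univ _, hS.2⟩
      · intro S hS
        rw [Finset.mem_filter] at hS ⊢
        exact ⟨Finset.mem_univ _, fun h => h hS.2⟩
      · intro S _
        exact compl_compl S
      · intro S _
        exact compl_compl S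
      · intro S _
        exact (h2 S).symm
    have h4 : ∑ S ∈ Finset.univ.filter (fun S : Set G => g ∈ S), F S = ∑ S : Q, F S.1 := by
      rw [← Finset.sum_subtype (Finset.univ.filter (fun S : Set G => S ∈ P ∧ g ∈ S))
        (fun S => by simp) F]
      symm
      refine Finset.sum_subset ?_ ?_
      · intro S hS
        rw [Finset.mem_filter] at hS ⊢
        exact ⟨hS.1, hS.2.2⟩
      · intro S hS hS'
        rw [Finset.mem_filter] at hS hS'
        exact h1 S fun h => hS' ⟨Finset.mem_univ _, h, hS.2⟩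
    rw [h3, h4]
    ring
  -- restriction to representatives
  let R : (Set G → ℤ) →ₗ[ℤ] (Q → ℤ) := LinearMap.funLeft ℤ ℤ Subtype.val
  let M : Submodule ℤ (Q → ℤ) := (LamP P).map R
  have hinj : Function.Injective (R.domRestrict (LamP P)) := by
    rw [injective_iff_map_eq_zero]
    rintro ⟨a, ha⟩ h
    refine Subtype.ext (funext fun S => ?_)
    change a S = 0
    obtain ⟨h1, h2, h3⟩ := mem_LamP.1 ha
    have h4 : ∀ S, S ∈ P → g ∈ S → a S = 0 := fun S hS hg => congrFun h (⟨S, hS, hg⟩ : Q)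
    by_cases hS : S ∈ P
    · by_cases hg : g ∈ S
      · exact h4 S hS hg
      · have h5 := h4 Sᶜ (hP S hS) hg
        rw [h2] at h5
        omega
    · exact h1 S hS
  have hMfin : finrank ℤ (LamP P) = finrank ℤ M := by
    have h1 : LinearMap.range (R.domRestrict (LamP P)) = M := by
      rw [LinearMap.range_domRestrict]
    rw [← h1]
    exact (LinearMap.finrank_range_of_inj hinj).symm
  have hM : ∀ b : Q → ℤ, b ∈ M ↔ Ψ (fun x => (b x : ℚ)) = 0 := by
    intro b
    constructor
    · rintro ⟨a, ha, rfl⟩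
      obtain ⟨h1, h2, h3⟩ := mem_LamP.1 ha
      funext σ
      have h4 := hsum (fun S => (a S : ℚ) * ε S σ) (fun S hS => by
        change (a S : ℚ) * ε S σ = 0
        rw [h1 S hS]; simp) (fun S => by
        change (a Sᶜ : ℚ) * ε Sᶜ σ = (a S : ℚ) * ε S σ
        rw [h2, hε]; push_cast; ring)
      have h5 : ∑ S, (a S : ℚ) * ε S σ = 0 := by
        have h6 : ((∑ S, a S * (if σ ∈ S then 1 else -1) : ℤ) : ℚ) = ((0 : ℤ) : ℚ) := by
          rw [h3 σ]
        push_cast at h6
        rw [← h6]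
      rw [h5] at h4
      change ∑ S : Q, ((a S.1 : ℤ) : ℚ) * ε S.1 σ = 0
      have h7 : (2 : ℚ) ≠ 0 := two_ne_zero
      have h8 := h4.symm
      rcases mul_eq_zero.1 h8 with h9 | h9
      · exact absurd h9 h7
      · exact h9
    · intro hb
      let a : Set G → ℤ := fun S =>
        if h : S ∈ P ∧ g ∈ S then b ⟨S, h⟩ else
          if h : Sᶜ ∈ P ∧ g ∈ Sᶜ then - b ⟨Sᶜ, h⟩ else 0
      have ha1 : ∀ S (h : S ∈ P ∧ g ∈ S), a S = b ⟨S, h⟩ := fun S h => dif_pos h
      have ha0 : ∀ S (h' : Sᶜ ∈ P ∧ g ∈ Sᶜ), a S = - b ⟨Sᶜ, h'⟩ := fun S h' =>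
        (dif_neg (fun h => h'.2 h.2)).trans (dif_pos h')
      have ha2 : ∀ S ∉ P, a S = 0 := by
        intro S hS
        change (if h : S ∈ P ∧ g ∈ S then b ⟨S, h⟩ else
          if h : Sᶜ ∈ P ∧ g ∈ Sᶜ then - b ⟨Sᶜ, h⟩ else 0) = 0
        rw [dif_neg (fun h => hS h.1), dif_neg (fun h => hS ((hPc S).1 h.1))]
      have ha3 : ∀ S, a Sᶜ = - a S := by
        intro S
        by_cases hS : S ∈ P
        · by_cases hg : g ∈ S
          · rw [ha1 S ⟨hS, hg⟩, ha0 Sᶜ (by rw [compl_compl]; exact ⟨hS, hg⟩)]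
            congr 2
            exact Subtype.ext (compl_compl S)
          · rw [ha1 Sᶜ ⟨hP S hS, hg⟩, ha0 S ⟨hP S hS, hg⟩, neg_neg]
        · rw [ha2 S hS, ha2 Sᶜ (fun h => hS ((hPc S).1 h)), neg_zero]
      refine ⟨a, mem_LamP.2 ⟨ha2, ha3, fun σ => ?_⟩, ?_⟩
      · have h4 := hsum (fun S => (a S : ℚ) * ε S σ) (fun S hS => by
          change (a S : ℚ) * ε S σ = 0
          rw [ha2 S hS]; simp) (fun S => by
          change (a Sᶜ : ℚ) * ε Sᶜ σ = (a S : ℚ) * ε S σ
          rw [ha3, hε]; push_cast; ring)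
        have h5 : ∑ S : Q, (a S.1 : ℚ) * ε S.1 σ = 0 := by
          have h6 := congrFun hb σ
          change ∑ S : Q, (b S : ℚ) * ε S.1 σ = 0 at h6
          rw [← h6]
          exact Finset.sum_congr rfl fun S _ => by rw [ha1 S.1 S.2]
        rw [h5, mul_zero] at h4
        have h7 : ((∑ S, a S * (if σ ∈ S then 1 else -1) : ℤ) : ℚ) = 0 := by
          push_cast
          rw [← h4]
        exact_mod_cast h7
      · funext S
        exact ha1 S.1 S.2
  rw [hMfin, finrank_ker_int Ψ M hM]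
  have hrange : LinearMap.range Ψ = Submodule.span ℚ (ε '' P) := by
    apply le_antisymm
    · rintro _ ⟨b, rfl⟩
      have h1 : Ψ b = ∑ S : Q, b S • ε S.1 := by
        funext σ
        rw [Finset.sum_apply]
        rfl
      rw [h1]
      exact Submodule.sum_mem _ fun S _ => Submodule.smul_mem _ _
        (Submodule.subset_span ⟨S.1, S.2.1, rfl⟩)
    · rw [Submodule.span_le]
      rintro _ ⟨S, hS, rfl⟩
      have h1 : ∀ S, S ∈ P → g ∈ S → ε S ∈ LinearMap.range Ψ := by
        intro S hS hg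
        refine ⟨Pi.single (⟨S, hS, hg⟩ : Q) 1, ?_⟩
        funext σ
        change ∑ S' : Q, (Pi.single (⟨S, hS, hg⟩ : Q) (1 : ℚ) : Q → ℚ) S' * ε S'.1 σ = _
        rw [Finset.sum_eq_single (⟨S, hS, hg⟩ : Q)]
        · rw [Pi.single_eq_same, one_mul]
        · intro S' _ h
          rw [Pi.single_eq_of_ne h, zero_mul]
        · intro h
          exact absurd (Finset.mem_univ _) h
      by_cases hg : g ∈ S
      · exact h1 S hS hg
      · have h2 := h1 Sᶜ (hP S hS) hg
        have h3 : ε S = - ε Sᶜ := by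
          funext σ
          rw [Pi.neg_apply, hε, neg_neg]
        change ε S ∈ _
        rw [h3]
        exact Submodule.neg_mem _ h2
  change finrank ℚ (LinearMap.ker Ψ) + finrank ℚ (Submodule.span ℚ (ε '' P)) = _
  rw [← hrange, add_comm, LinearMap.finrank_range_add_finrank_ker, finrank_fintype_fun_eq_card]
  -- the number of representatives
  have hcard : P.ncard = 2 * Fintype.card Q := by
    have h1 := hsum (fun S => if S ∈ P then 1 else 0) (fun S hS => if_neg hS) (fun S => by
      change (if Sᶜ ∈ P then (1 : ℚ) else 0) = if S ∈ P then (1 : ℚ) else 0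
      simp only [hPc])
    have h2 : ∑ S : Q, (if S.1 ∈ P then (1 : ℚ) else 0) = Fintype.card Q := by
      rw [Finset.sum_congr rfl (fun S _ => if_pos S.2.1), Finset.sum_const, Finset.card_univ,
        nsmul_eq_mul, mul_one]
    have h3 : ∑ S : Set G, (if S ∈ P then (1 : ℚ) else 0) = P.ncard := by
      rw [Finset.sum_boole, Set.ncard_eq_toFinset_card']
      congr 2
      ext S
      simp
    rw [h2, h3] at h1
    exact_mod_cast h1
  rw [hcard]
  omega

end Pool.Agent.K4H34.DB
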