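import Mathlib
import Pool.Agent.W547.KB.Converse
import Pool.Agent.Y90.Defs

/-!
# Abelian varieties of CM type have polarizations
-/

set_option autoImplicit false
set_option linter.unusedSectionVars false
set_option linter.unusedVariables false

namespace Pool.Agent.K4H34.DB

open NumberField Module Pool.Agent.Y90
open Pool.Agent.W547.KB (CMPair CMAV span_perX)

/-- There is an element of the field whose images under the CM type have negative imaginary part. -/
theorem exists_neg (P : CMPair) : ∃ x : P.E, ∀ φ ∈ P.Φ, (φ x).im < 0 := by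
  classical
  let X : CMAV := ⟨Unit, fun _ => P⟩
  let b := Module.finBasis ℚ P.E
  set n := finrank ℚ P.E with hn
  -- real combinations
  have hspan := span_perX X
  let pv : P.E → (P.Φ → ℂ) := fun x φ => φ.1 x
  have h1 : ∀ u : P.Φ → ℂ, ∃ r : Fin n → ℝ, ∀ φ : P.Φ, u φ = ∑ k, (r k : ℂ) * φ.1 (b k) := by
    intro u
    have h2 : (fun _ => u : X.Tan) ∈ Submodule.span ℝ (Set.range X.per) := by
      rw [hspan]
      trivial
    have h3 : ∀ t ∈ Submodule.span ℝ (Set.range X.per), ∃ r : Fin n → ℝ, ∀ φ : P.Φ,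
        t () φ = ∑ k, (r k : ℂ) * φ.1 (b k) := by
      intro t ht
      induction ht using Submodule.span_induction with
      | mem t ht =>
        obtain ⟨w, rfl⟩ := ht
        refine ⟨fun k => ((b.repr (w ()) k : ℚ) : ℝ), fun φ => ?_⟩
        change φ.1 (w ()) = _
        conv_lhs => rw [← b.sum_repr (w ()), map_sum]
        refine Finset.sum_congr rfl fun k _ => ?_
        rw [Rat.smul_def, map_mul, map_ratCast]
        push_cast
        rfl
      | zero => exact ⟨0, fun φ => by simp⟩
      | add s t _ _ hs ht =>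
        obtain ⟨r, hr⟩ := hs
        obtain ⟨r', hr'⟩ := ht
        refine ⟨r + r', fun φ => ?_⟩
        rw [Pi.add_apply, Pi.add_apply, hr, hr', ← Finset.sum_add_distrib]
        refine Finset.sum_congr rfl fun k _ => ?_
        rw [Pi.add_apply]
        push_cast
        ring
      | smul a t _ ht =>
        obtain ⟨r, hr⟩ := ht
        refine ⟨a • r, fun φ => ?_⟩
        rw [Pi.smul_apply, Pi.smul_apply, hr, Complex.real_smul, Finset.mul_sum]
        refine Finset.sum_congr rfl fun k _ => ?_
        rw [Pi.smul_apply, smul_eq_mul]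
        push_cast
        ring
    exact h3 _ h2
  obtain ⟨r, hr⟩ := h1 (fun _ => -Complex.I)
  -- the set of good real coefficients is open and contains r
  let S : Set (Fin n → ℝ) := {s | ∀ φ : P.Φ, (∑ k, (s k : ℂ) * φ.1 (b k)).im < 0}
  have hS : IsOpen S := by
    have h2 : S = ⋂ φ : P.Φ, {s : Fin n → ℝ | (∑ k, (s k : ℂ) * φ.1 (b k)).im < 0} := by
      ext s
      simp [S]
    rw [h2]
    refine isOpen_iInter_of_finite fun φ => ?_
    refine isOpen_lt ?_ continuous_const
    refine Complex.continuous_im.comp (continuous_finsetSum _ fun k _ => ?_)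
    exact (Complex.continuous_ofReal.comp (continuous_apply k)).mul continuous_const
  have hrS : r ∈ S := by
    intro φ
    rw [← hr φ]
    simp
  have hd : DenseRange (fun s : Fin n → ℚ => fun k => ((s k : ℚ) : ℝ)) :=
    DenseRange.piMap fun _ => Rat.denseRange_cast
  obtain ⟨s, hs⟩ := hd.exists_mem_open hS ⟨r, hrS⟩
  refine ⟨∑ k, s k • b k, fun φ hφ => ?_⟩
  have h4 := hs ⟨φ, hφ⟩
  have h5 : φ (∑ k, s k • b k) = ∑ k, (((s k : ℚ) : ℝ) : ℂ) * φ (b k) := by
    rw [map_sum]
    refine Finset.sum_congr rfl fun k _ => ?_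
    rw [Rat.smul_def, map_mul, map_ratCast]
    push_cast
    rfl
  rw [h5]
  exact h4

/-- The sum over all embeddings. -/
theorem sum_emb (P : CMPair) [Fintype P.Φ] (z : P.E) :
    ((Algebra.trace ℚ P.E z : ℚ) : ℝ) = ∑ φ : P.Φ, 2 * (φ.1 z).re := by
  classical
  have h1 : ((Algebra.trace ℚ P.E z : ℚ) : ℂ) = ∑ φ : P.E →+* ℂ, φ z := by
    have h2 := trace_eq_sum_embeddings (K := ℚ) (L := P.E) ℂ (x := z)
    rw [eq_ratCast] at h2
    rw [h2]
    exact Fintype.sum_equiv (RingHom.equivRatAlgHom P.E ℂ).symm _ _ fun φ => rfl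
  have h3 : ∑ φ : P.E →+* ℂ, φ z = ∑ φ : P.Φ, (φ.1 z + (starRingEnd ℂ) (φ.1 z)) := by
    rw [Finset.sum_add_distrib, ← Finset.sum_filter_add_sum_filter_not Finset.univ
      (fun φ : P.E →+* ℂ => φ ∈ P.Φ)]
    congr 1
    · exact Finset.sum_subtype _ (fun φ => by simp) _
    · refine Finset.sum_bij' (fun φ hφ => (⟨ComplexEmbedding.conjugate φ, ?_⟩ : P.Φ))
        (fun φ _ => ComplexEmbedding.conjugate φ.1) ?_ ?_ ?_ ?_ ?_
      · rw [Finset.mem_filter] at hφ
        by_contra hcon
        exact hφ.2 ((P.isCMType φ).2 hcon)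
      · intro φ hφ
        exact Finset.mem_univ _
      · intro φ _
        rw [Finset.mem_filter]
        exact ⟨Finset.mem_univ _, (P.isCMType φ.1).1 φ.2⟩
      · intro φ hφ
        exact star_star φ
      · intro φ _
        exact Subtype.ext (star_star φ.1)
      · intro φ hφ
        change φ z = (starRingEnd ℂ) (ComplexEmbedding.conjugate φ z)
        rw [ComplexEmbedding.conjugate_coe_eq, Complex.conj_conj]
  have h4 : ((Algebra.trace ℚ P.E z : ℚ) : ℂ).re = ((Algebra.trace ℚ P.E z : ℚ) : ℝ) := by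
    rw [← Complex.ofReal_ratCast, Complex.ofReal_re]
  rw [← h4, h1, h3, Complex.re_sum]
  refine Finset.sum_congr rfl fun φ _ => ?_
  rw [Complex.add_re, Complex.conj_re]
  ring

/-- **Abelian varieties of CM type have polarizations.** -/
theorem exists_pol (X : CMAV) : ∃ E, IsPolarization X.per E := by
  classical
  choose x hx using fun i => exists_neg (X.factor i)
  let ξ : ∀ i, (X.factor i).E := fun i => x i - IsCMField.complexConj (X.factor i).E (x i)
  have hφξ : ∀ i (φ : (X.factor i).E →+* ℂ), φ (ξ i) = (2 * (φ (x i)).im : ℝ) * Complex.I := by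
    intro i φ
    change φ (x i - IsCMField.complexConj (X.factor i).E (x i)) = _
    rw [map_sub, IsCMField.complexEmbedding_complexConj]
    apply Complex.ext
    · simp
    · simp
      ring
  let c : ∀ i, (X.factor i).Φ → ℝ := fun i φ => -4 * (φ.1 (x i)).im
  have hc : ∀ i φ, 0 < c i φ := by
    intro i φ
    have := hx i φ.1 φ.2
    change 0 < -4 * (φ.1 (x i)).im
    linarith
  refine ⟨fun v w => ∑ i, Algebra.trace ℚ (X.factor i).E
    (ξ i * (v i * IsCMField.complexConj (X.factor i).E (w i))),
    fun u u' => ∑ i, ∑ φ, (c i φ : ℂ) * (u i φ * (starRingEnd ℂ) (u' i φ)), ?_, ?_, ?_, ?_⟩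
  · intro u'
    constructor
    · intro u v
      rw [← Finset.sum_add_distrib]
      refine Finset.sum_congr rfl fun i _ => ?_
      rw [← Finset.sum_add_distrib]
      refine Finset.sum_congr rfl fun φ _ => ?_
      rw [Pi.add_apply, Pi.add_apply]
      ring
    · intro a u
      rw [smul_eq_mul, Finset.mul_sum]
      refine Finset.sum_congr rfl fun i _ => ?_
      rw [Finset.mul_sum]
      refine Finset.sum_congr rfl fun φ _ => ?_
      rw [Pi.smul_apply, Pi.smul_apply, smul_eq_mul]
      ring
  · intro u u'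
    rw [map_sum]
    refine Finset.sum_congr rfl fun i _ => ?_
    rw [map_sum]
    refine Finset.sum_congr rfl fun φ _ => ?_
    rw [map_mul, map_mul, Complex.conj_conj, Complex.conj_ofReal]
    ring
  · intro u hu
    rw [Complex.re_sum]
    have hterm : ∀ i φ, ((c i φ : ℂ) * (u i φ * (starRingEnd ℂ) (u i φ))).re =
        c i φ * ‖u i φ‖ ^ 2 := by
      intro i φ
      rw [Complex.mul_conj, Complex.normSq_eq_norm_sq, ← Complex.ofReal_mul, Complex.ofReal_re]
    obtain ⟨i, hi⟩ : ∃ i, u i ≠ 0 := by
      by_contra hcon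
      push Not at hcon
      exact hu (funext hcon)
    obtain ⟨φ, hφ⟩ : ∃ φ, u i φ ≠ 0 := by
      by_contra hcon
      push Not at hcon
      exact hi (funext hcon)
    refine Finset.sum_pos' (fun i _ => ?_) ⟨i, Finset.mem_univ _, ?_⟩
    · rw [Complex.re_sum]
      refine Finset.sum_nonneg fun φ _ => ?_
      rw [hterm]
      exact mul_nonneg (hc i φ).le (sq_nonneg _)
    · rw [Complex.re_sum]
      refine Finset.sum_pos' (fun φ _ => ?_) ⟨φ, Finset.mem_univ _, ?_⟩
      · rw [hterm]
        exact mul_nonneg (hc i φ).le (sq_nonneg _)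
      · rw [hterm]
        exact mul_pos (hc i φ) (by positivity)
  · intro v w
    rw [Complex.im_sum]
    push_cast
    refine Finset.sum_congr rfl fun i _ => ?_
    rw [Complex.im_sum, sum_emb]
    refine Finset.sum_congr rfl fun φ _ => ?_
    have h1 : X.per v i φ = φ.1 (v i) := rfl
    have h2 : X.per w i φ = φ.1 (w i) := rfl
    rw [h1, h2, map_mul, map_mul, IsCMField.complexEmbedding_complexConj, hφξ]
    set z := φ.1 (v i) * (starRingEnd ℂ) (φ.1 (w i)) with hz
    have h3 : ((c i φ : ℂ) * z).im = c i φ * z.im := by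
      rw [Complex.im_ofReal_mul]
    have h4 : ((((2 * (φ.1 (x i)).im : ℝ) : ℂ) * Complex.I) * z).re =
        - (2 * (φ.1 (x i)).im) * z.im := by
      rw [mul_assoc, Complex.re_ofReal_mul, Complex.I_mul_re]
      ring
    rw [h3, h4]
    change (-4 * (φ.1 (x i)).im) * z.im = _
    ring

/-- The abelian variety of CM type `A`. -/
theorem exists_pol_single (A : CMPair) :
    ∃ E, IsPolarization (CMAV.per ⟨Unit, fun _ => A⟩) E := exists_pol _

end Pool.Agent.K4H34.DB
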