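import Mathlib
import Pool.Agent.R915.G5
import Pool.Agent.K4H29.HC.Field
import Pool.Agent.K4H29.HC.Obt2
import Pool.Agent.K4H29.HC.GenF
import Pool.Agent.K4H29.HC.Neg
import Pool.Agent.W547.LD.Pull

/-!
# Abelian varieties as products of simple ones; simple abelian varieties of CM type
-/

set_option linter.unusedSectionVars false
set_option linter.unusedVariables false
set_option autoImplicit false

namespace Pool.Agent.K4H34.DB

open Matrix Module NumberField Pool.Agent.W437.HC Pool.Agent.W437.HD Pool.Agent.TH504.CB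
  Pool.Agent.Y90 Pool.Agent.R915 Pool.Agent.K4H29.HC
open Pool.Agent.H204R3.CM (IsHodge IsCMType)
open Pool.Agent.W547.KB (CMPair CMAV Wt ev St)
open Pool.Agent.W547.LN (SameType)
open Pool.Agent.W437.HP (cK cK_mul cK_one cK_sum)

noncomputable section

/-- **Complete reducibility**: an abelian variety is isogenous to the product of finitely many simple
ones. -/
theorem exists_dec (X : AV) : ∃ (Q : Type) (_ : Fintype Q) (_ : DecidableEq Q) (Y : Q → AV)
    (i : ∀ q, (Y q).H →ₗ[ℚ] X.H) (p : ∀ q, X.H →ₗ[ℚ] (Y q).H), (∀ q, IsSimple (Y q)) ∧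
    (∀ q, IsHom (Y q) X (i q)) ∧ (∀ q, IsHom X (Y q) (p q)) ∧ (∀ q v, p q (i q v) = v) ∧
    (∀ q q' v, q ≠ q' → p q' (i q v) = 0) ∧ ∀ x, ∑ q, i q (p q x) = x := by
  obtain ⟨G, Z, h, A, hC⟩ := exists_ppav (AV.isAV X)
  obtain ⟨ι, _, _, g, Z', E, F, h1, h2, h3, h4, h5, h6, h7, h8⟩ :=
    decomposes G G Z le_rfl h.symm h.pos
  have h' : ∀ q, PM (Z' q) := fun q => ⟨h1 q, h2 q⟩
  have hF : ∀ i, cK ℝ (F i) * JR Z = JR (Z' i) * cK ℝ (F i) := by
    intro i
    have h12 : JR Z = ∑ j, JR Z * cK ℝ (E j) * cK ℝ (F j) := by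
      have h13 : JR Z = JR Z * cK ℝ (∑ i, E i * F i) := by rw [h6, cK_one, Matrix.mul_one]
      conv_lhs => rw [h13, cK_sum, Matrix.mul_sum]
      refine Finset.sum_congr rfl fun j _ => ?_
      rw [cK_mul, Matrix.mul_assoc]
    rw [h12, Matrix.mul_sum, Finset.sum_eq_single i]
    · rw [h7 i, ← Matrix.mul_assoc, ← Matrix.mul_assoc, ← cK_mul, h4 i, cK_one, Matrix.one_mul]
    · intro j _ hj
      rw [h7 j, ← Matrix.mul_assoc, ← Matrix.mul_assoc, ← cK_mul, h5 i j hj.symm,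
        Pool.Agent.W437.HP.cK_zero, Matrix.zero_mul, Matrix.zero_mul]
    · intro hi'
      exact absurd (Finset.mem_univ i) hi'
  refine ⟨ι, inferInstance, inferInstance, fun q => AVZ (h' q),
    fun q => A.symm.toLinearMap.comp (Matrix.mulVecLin (E q)),
    fun q => (Matrix.mulVecLin (F q)).comp A.toLinearMap,
    fun q => simple_of _ (h' q) (h3 q) (h8 q), fun q => ?_, fun q => ?_, fun q v => ?_,
    fun q q' v hq => ?_, fun x => ?_⟩
  · obtain ⟨Ψ₁, e₁⟩ := (h' q).cht.hom hC (R := E q) (by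
      rw [DJ_JR, DJ_JR]
      exact (de_of_JR (h7 q)).symm)
    exact ⟨Ψ₁, fun v => e₁ v⟩
  · obtain ⟨Ψ₂, e₂⟩ := hC.hom (h' q).cht (R := F q) (by
      rw [DJ_JR, DJ_JR]
      exact fd_of_JR (hF q))
    refine ⟨Ψ₂, fun v => ?_⟩
    have h9 := e₂ (A v)
    have h10 : (X.per.comp A.symm.toLinearMap.toAddMonoidHom) (A v) = X.per v := by
      change X.per (A.symm (A v)) = X.per v
      rw [LinearEquiv.symm_apply_apply]
    rw [h10] at h9
    exact h9
  · change F q *ᵥ A (A.symm (E q *ᵥ v)) = v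
    rw [LinearEquiv.apply_symm_apply, mulVec_mulVec, h4, one_mulVec]
  · change F q' *ᵥ A (A.symm (E q *ᵥ v)) = 0
    rw [LinearEquiv.apply_symm_apply, mulVec_mulVec, h5 q' q (Ne.symm hq), zero_mulVec]
  · change ∑ q, A.symm (E q *ᵥ (F q *ᵥ A x)) = x
    rw [← map_sum, LinearEquiv.symm_apply_eq]
    have h9 : ∀ q, E q *ᵥ (F q *ᵥ A x) = (E q * F q) *ᵥ A x := fun q => mulVec_mulVec _ _ _
    rw [Finset.sum_congr rfl fun q _ => h9 q, ← Matrix.sum_mulVec, h6, one_mulVec]

/-- **Simple abelian varieties have primitive CM types.** -/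
theorem primitive_of_simple {Y : AV} (hs : IsSimple Y) {P : CMPair} (hP : IsOfType Y P) :
    Primitive P := by
  obtain ⟨e, Θ, hΘ⟩ := hP
  obtain ⟨L, _, _, _, _, j, hj⟩ := Pool.Agent.W547.KB.exists_cm (Pool.Agent.W547.KB.single P)
  refine primitive_of_inj P j (fun ψ => hj () ψ) ?_
  intro φ ψ h
  have hmul : ∀ c : P.E, IsHom Y Y (e.symm.toLinearMap.comp
      ((LinearMap.mulLeft ℚ c).comp e.toLinearMap)) := by
    intro c
    refine ⟨Θ.symm.toLinearMap.comp ((LinearMap.pi fun φ : P.Φ => (φ.1 c) • LinearMap.proj φ :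
      (P.Φ → ℂ) →ₗ[ℂ] (P.Φ → ℂ)).comp Θ.toLinearMap), fun v => ?_⟩
    change Θ.symm _ = Y.per (e.symm (c * e v))
    rw [LinearEquiv.symm_apply_eq]
    funext φ
    rw [hΘ, e.apply_symm_apply, map_mul]
    change φ.1 c * Θ (Y.per v) φ = _
    rw [hΘ]
  have hkey : ∀ (γ : L) (a : P.E), Pool.Agent.W547.KB.rtr ψ (γ * φ a) =
      Pool.Agent.W547.KB.rtr ψ γ * a := by
    intro γ
    obtain ⟨H, hH⟩ := Pool.Agent.W547.LD.isHom_hom1 (X := Pool.Agent.W547.KB.single P)
      (Y := Pool.Agent.W547.KB.single P) j γ ⟨(), φ⟩ ⟨(), ψ⟩ h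
    let f : Y.H →ₗ[ℚ] Y.H := e.symm.toLinearMap.comp (({
        toFun := fun a => Pool.Agent.W547.KB.rtr ψ (γ * φ a)
        map_add' := fun a b => by rw [map_add, mul_add, map_add]
        map_smul' := fun q a => by
          rw [map_rat_smul φ q a, mul_smul_comm, Pool.Agent.W547.KB.rtr_smul]
          rfl } : P.E →ₗ[ℚ] P.E).comp e.toLinearMap)
    have hf : ∀ v, f v = e.symm (Pool.Agent.W547.KB.rtr ψ (γ * φ (e v))) := fun _ => rfl
    have hfh : IsHom Y Y f := by
      let Hl : (P.Φ → ℂ) →ₗ[ℂ] (P.Φ → ℂ) :=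
        { toFun := fun t => H (fun _ => t) ()
          map_add' := fun s t => by
            have h1 : H (fun _ => s + t) = H (fun _ => s) + H (fun _ => t) :=
              map_add H (fun _ => s) (fun _ => t)
            rw [h1]
            rfl
          map_smul' := fun c t => by
            have h1 : H (fun _ => c • t) = c • H (fun _ => t) := map_smul H c (fun _ => t)
            rw [h1]
            rfl }
      refine ⟨Θ.symm.toLinearMap.comp (Hl.comp Θ.toLinearMap), fun v => ?_⟩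
      change Θ.symm (Hl (Θ (Y.per v))) = _
      rw [LinearEquiv.symm_apply_eq]
      funext χ
      rw [hΘ, hf, e.apply_symm_apply]
      have h1 : (fun _ : Unit => Θ (Y.per v)) = (Pool.Agent.W547.KB.single P).per
          (fun _ => e v) := by
        funext _ χ
        exact hΘ v χ
      change H (fun _ => Θ (Y.per v)) () χ = _
      rw [h1, hH]
      have h5 : (Pool.Agent.W547.LD.hom1 (X := Pool.Agent.W547.KB.single P)
          (Y := Pool.Agent.W547.KB.single P) γ ⟨(), φ⟩ ⟨(), ψ⟩ (fun _ => e v)) () =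
          Pool.Agent.W547.KB.rtr ψ (γ * φ (e v)) := by
        rw [Pool.Agent.W547.LD.hom1_apply]
        exact @Pi.single_eq_same _ _ _ (fun a b => Classical.propDecidable (a = b)) _ _
      exact congrArg χ.1 h5
    have h0 := hmul (Pool.Agent.W547.KB.rtr ψ γ)
    have h1 := simple_hom_zero hs (isHom_sub hfh h0) (x := e.symm 1) (by
      intro h
      rw [LinearEquiv.map_eq_zero_iff] at h
      exact one_ne_zero h) (by
      rw [LinearMap.sub_apply, sub_eq_zero, hf, e.apply_symm_apply, map_one, mul_one]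
      change _ = e.symm (Pool.Agent.W547.KB.rtr ψ γ * e (e.symm 1))
      rw [e.apply_symm_apply, mul_one])
    intro a
    have h2 := LinearMap.congr_fun h1 (e.symm a)
    rw [LinearMap.sub_apply, LinearMap.zero_apply, sub_eq_zero, hf, e.apply_symm_apply] at h2
    have h3 : e.symm (Pool.Agent.W547.KB.rtr ψ (γ * φ a)) =
        e.symm (Pool.Agent.W547.KB.rtr ψ γ * e (e.symm a)) := h2
    rw [e.apply_symm_apply] at h3
    exact e.symm.injective h3
  have hlin : ∀ (γ : L) (a : P.E), Pool.Agent.W547.KB.rtr ψ (γ * ψ a) =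
      Pool.Agent.W547.KB.rtr ψ γ * a := by
    intro γ a
    let _ := ψ.toAlgebra
    have h1 : (Algebra.trace P.E L) (a • γ) = a • (Algebra.trace P.E L) γ := map_smul _ a γ
    have h2 : a • γ = γ * ψ a := by
      rw [Algebra.smul_def, mul_comm]
      rfl
    rw [h2, smul_eq_mul] at h1
    change (Algebra.trace P.E L) (γ * ψ a) = (Algebra.trace P.E L) γ * a
    rw [h1, mul_comm]
  have hone : Pool.Agent.W547.KB.rtr ψ (1 : L) ≠ 0 := by
    let _ := ψ.toAlgebra
    have _ : IsScalarTower ℚ P.E L := inferInstance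
    have _ : FiniteDimensional P.E L := FiniteDimensional.right ℚ P.E L
    change (Algebra.trace P.E L) 1 ≠ 0
    have h1 := Algebra.trace_algebraMap (R := P.E) (S := L) (1 : P.E)
    rw [map_one] at h1
    rw [h1, nsmul_eq_mul, mul_one, Nat.cast_ne_zero]
    exact (finrank_pos (R := P.E) (M := L)).ne'
  ext a
  by_contra hne
  have h1 : φ a - ψ a ≠ 0 := sub_ne_zero.2 hne
  apply hone
  have h2 := hkey (φ a - ψ a)⁻¹ a
  have h3 := hlin (φ a - ψ a)⁻¹ a
  rw [← inv_mul_cancel₀ h1, mul_sub, map_sub, h2, h3, sub_self]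

/-- Isogenous abelian varieties have the same types. -/
theorem IsOfType.iso {X Y : AV} {P : CMPair} (e : X.H ≃ₗ[ℚ] Y.H) (he : IsHom X Y e.toLinearMap)
    (h : IsOfType Y P) : IsOfType X P := by
  obtain ⟨e', Ψ', hΨ'⟩ := h
  obtain ⟨Φ, hΦ⟩ := he
  have h5 : Function.Surjective Φ := tan_surj hΦ e.surjective
  have h6 : finrank ℂ X.T = finrank ℂ Y.T := by
    have h3 := e.finrank_eq
    rw [X.rank, Y.rank] at h3
    omega
  have h7 : Function.Injective Φ := (LinearMap.injective_iff_surjective_of_finrank_eq_finrank h6).2 h5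
  let E : X.T ≃ₗ[ℂ] Y.T := LinearEquiv.ofBijective Φ ⟨h7, h5⟩
  have hE : ∀ v, E (X.per v) = Y.per (e v) := fun v => hΦ v
  exact ⟨e.trans e', E.trans Ψ', fun v φ => by
    rw [LinearEquiv.trans_apply, hE, hΨ', LinearEquiv.trans_apply]⟩

/-- The type of a simple abelian variety with complex multiplication is unique. -/
theorem same_of_type {A P : CMPair} (hA : Primitive A) (hPp : Primitive P)
    (hp : ∃ E, IsPolarization (perC A) E) (h : IsOfType (avP A hp) P) : SameType A P := by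
  obtain ⟨e, Ψ, hΨ⟩ := h
  have hPs : ∀ b, Ψ.symm (perC P b) = (avP A hp).per (e.symm b) := by
    intro b
    rw [LinearEquiv.symm_apply_eq]
    funext φ
    rw [hΨ, e.apply_symm_apply]
    rfl
  have hp' : ∃ E, IsPolarization (perC P) E :=
    pol_of_factor e.symm.toLinearMap Ψ.symm.toLinearMap e.symm.injective hPs
  have h1 : IsHom (avP A hp) (avP P hp') e.toLinearMap := ⟨Ψ.toLinearMap, fun v => by
    funext φ
    exact hΨ v φ⟩
  by_contra hne
  have h3 := hom_zero (hP := hp) (hQ := hp') hA hPp hne (f := e.toLinearMap) h1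
  have h4 : e.toLinearMap (1 : A.E) = 0 := by
    rw [h3]
    rfl
  have h5 : (1 : A.E) = 0 := (LinearEquiv.map_eq_zero_iff e).1 h4
  exact one_ne_zero h5

/-- The simple factors are those of a decomposition. -/
theorem exists_iso_dec {X : AV} {Q : Type} [Fintype Q] {Y : Q → AV}
    {i : ∀ q, (Y q).H →ₗ[ℚ] X.H} {p : ∀ q, X.H →ₗ[ℚ] (Y q).H} (hs : ∀ q, IsSimple (Y q))
    (hp : ∀ q, IsHom X (Y q) (p q)) (h3 : ∀ x, ∑ q, i q (p q x) = x) {Z : AV}
    (hZ : IsFactor Z X) : ∃ (q : Q) (e : Z.H ≃ₗ[ℚ] (Y q).H), IsHom Z (Y q) e.toLinearMap ∧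
      IsHom (Y q) Z e.symm.toLinearMap := by
  obtain ⟨hZs, k, hk, hinj⟩ := hZ
  obtain ⟨y, hy⟩ := hZs.1
  obtain ⟨q, hq⟩ : ∃ q, p q (k y) ≠ 0 := by
    by_contra hcon
    push Not at hcon
    apply hy
    apply hinj
    rw [map_zero, ← h3 (k y)]
    exact Finset.sum_eq_zero fun q _ => by rw [hcon q, map_zero]
  obtain ⟨e, he⟩ := iso_of_simple hZs (hs q) (IsHom.comp' (hp q) hk) (f := (p q).comp k) (by
    intro h
    exact hq (LinearMap.congr_fun h y))
  exact ⟨q, e, he⟩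

/-- **The simple factors with complex multiplication** of an abelian variety. -/
theorem exists_part (X : AV) : ∃ X0 : CMAV, (∀ i, IsCMFactor (X0.factor i) X) ∧
    (∀ A : CMPair, IsCMFactor A X → ∃ i, SameType A (X0.factor i)) ∧
    (∀ Y, IsFactor Y X → HasCMult Y → ∃ i, IsOfType Y (X0.factor i)) ∧
    ∃ (I : X0.H1 →ₗ[ℚ] X.H) (R : X.H →ₗ[ℚ] X0.H1) (ΨI : X0.Tan →ₗ[ℂ] X.T)
      (ΨR : X.T →ₗ[ℂ] X0.Tan), (∀ v, ΨI (X0.per v) = X.per (I v)) ∧
      (∀ v, ΨR (X.per v) = X0.per (R v)) ∧ (∀ v, R (I v) = v) ∧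
      ((∀ Y, IsFactor Y X → HasCMult Y) → ∀ v, I (R v) = v) := by
  classical
  obtain ⟨Q, _, _, Y, i, p, hs, hi, hp, h1, h2, h3⟩ := exists_dec X
  have hinj : ∀ q, Function.Injective (i q) := fun q =>
    Function.LeftInverse.injective (h1 q)
  let Q' : Type := {q : Q // HasCMult (Y q)}
  choose P hP using fun q : Q' => exists_type (hs q.1) q.2
  have hprim : ∀ q, Primitive (P q) := fun q => primitive_of_simple (hs q.1) (hP q)
  have hP' := hP
  choose e' Θ' hΘ' using hP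
  choose Ψi hΨi using hi
  choose Ψp hΨp using hp
  have key : ∀ Z, IsFactor Z X → HasCMult Z → ∃ q : Q', IsOfType Z (P q) := by
    intro Z hZ hc
    obtain ⟨q, e, he, hes⟩ := exists_iso_dec hs (fun q => ⟨Ψp q, hΨp q⟩) h3 hZ
    have hq : HasCMult (Y q) := HasCMult.iso e.symm hes (by
      rw [LinearEquiv.symm_symm]
      exact he) hc
    exact ⟨⟨q, hq⟩, IsOfType.iso e he (hP' ⟨q, hq⟩)⟩
  let X0 : CMAV := ⟨Q', P⟩
  refine ⟨X0, fun q => ?_, fun A hA => ?_, key, ?_⟩
  · refine ⟨hprim q, (i q.1).comp (e' q).symm.toLinearMap,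
      (Ψi q.1).comp (Θ' q).symm.toLinearMap, (hinj q.1).comp (e' q).symm.injective, fun a => ?_⟩
    have h4 : (fun φ : (P q).Φ => φ.1 a) = Θ' q ((Y q.1).per ((e' q).symm a)) := by
      funext φ
      rw [hΘ', LinearEquiv.apply_symm_apply]
    change Ψi q.1 ((Θ' q).symm (fun φ : (P q).Φ => φ.1 a)) = X.per (i q.1 ((e' q).symm a))
    rw [h4, LinearEquiv.symm_apply_apply, hΨi]
  · obtain ⟨hpol, hf⟩ := factor_of_cm hA
    obtain ⟨q, hq⟩ := key _ hf (hasCMult_avP A hpol)
    exact ⟨q, same_of_type hA.1 (hprim q) hpol hq⟩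
  · let I : X0.H1 →ₗ[ℚ] X.H := ∑ q : Q', ((i q.1).comp (e' q).symm.toLinearMap).comp
      (LinearMap.proj q)
    let R : X.H →ₗ[ℚ] X0.H1 := LinearMap.pi fun q : Q' => (e' q).toLinearMap.comp (p q.1)
    let ΨI : X0.Tan →ₗ[ℂ] X.T := ∑ q : Q', ((Ψi q.1).comp (Θ' q).symm.toLinearMap).comp
      (LinearMap.proj q)
    let ΨR : X.T →ₗ[ℂ] X0.Tan := LinearMap.pi fun q : Q' => (Θ' q).toLinearMap.comp (Ψp q.1)
    have hI : ∀ x, I x = ∑ q : Q', i q.1 ((e' q).symm (x q)) := fun x => by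
      change (∑ q : Q', ((i q.1).comp (e' q).symm.toLinearMap).comp (LinearMap.proj q) :
        X0.H1 →ₗ[ℚ] X.H) x = _
      rw [LinearMap.sum_apply]
      rfl
    have hR : ∀ x (q : Q'), R x q = e' q (p q.1 x) := fun x q => rfl
    have hΨI : ∀ x, ΨI x = ∑ q : Q', Ψi q.1 ((Θ' q).symm (x q)) := fun x => by
      change (∑ q : Q', ((Ψi q.1).comp (Θ' q).symm.toLinearMap).comp (LinearMap.proj q) :
        X0.Tan →ₗ[ℂ] X.T) x = _
      rw [LinearMap.sum_apply]
      rfl
    refine ⟨I, R, ΨI, ΨR, fun v => ?_, fun v => ?_, fun v => ?_, fun hX v => ?_⟩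
    · rw [hΨI, hI, map_sum]
      refine Finset.sum_congr rfl fun q _ => ?_
      have h4 : X0.per v q = Θ' q ((Y q.1).per ((e' q).symm (v q))) := by
        funext φ
        rw [hΘ', LinearEquiv.apply_symm_apply]
        rfl
      rw [h4, LinearEquiv.symm_apply_apply, hΨi]
    · funext q φ
      change Θ' q (Ψp q.1 (X.per v)) φ = φ.1 (e' q (p q.1 v))
      rw [hΨp, hΘ']
    · funext q
      rw [hR, hI, map_sum, Finset.sum_eq_single q, h1, LinearEquiv.apply_symm_apply]
      · intro q' _ hq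
        exact h2 q'.1 q.1 _ fun h => hq (Subtype.ext h)
      · intro h
        exact absurd (Finset.mem_univ q) h
    · have hcm : ∀ q, HasCMult (Y q) := fun q => hX (Y q) ⟨hs q, i q, ⟨Ψi q, hΨi q⟩, hinj q⟩
      rw [hI]
      have h4 : ∀ q : Q', i q.1 ((e' q).symm (R v q)) = i q.1 (p q.1 v) := fun q => by
        rw [hR, LinearEquiv.symm_apply_apply]
      rw [Finset.sum_congr rfl fun q _ => h4 q]
      conv_rhs => rw [← h3 v]
      exact Fintype.sum_equiv (Equiv.subtypeUnivEquiv hcm) _ _ fun q => rfl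

/-- **Abelian varieties with complex multiplication** are isogenous to products of simple abelian
varieties of primitive CM types. -/
theorem exists_cmav (X : AV) (hX : ∀ Y, IsFactor Y X → HasCMult Y) : ∃ X0 : CMAV,
    (∀ i, Primitive (X0.factor i)) ∧ (∀ i, IsCMFactor (X0.factor i) X) ∧
    (∀ A : CMPair, IsCMFactor A X → ∃ i, SameType A (X0.factor i)) ∧
    ∃ (e : X.H ≃ₗ[ℚ] X0.H1) (Θ : X.T ≃ₗ[ℂ] X0.Tan), ∀ v, Θ (X.per v) = X0.per (e v) := by
  obtain ⟨X0, h1, h2, -, I, R, ΨI, ΨR, hI, hR, hRI, hIR⟩ := exists_part X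
  have hIR := hIR hX
  have h3 : ∀ t, ΨI (ΨR t) = t := by
    intro t
    have h4 : (ΨI.comp ΨR).restrictScalars ℝ =
        (LinearMap.id : X.T →ₗ[ℂ] X.T).restrictScalars ℝ := real_ext X fun v => by
      change ΨI (ΨR (X.per v)) = X.per v
      rw [hR, hI, hIR]
    exact congrArg (fun f => f t) h4
  have h4 : ∀ t, ΨR (ΨI t) = t := by
    intro t
    have h5 : (ΨR.comp ΨI).restrictScalars ℝ =
        (LinearMap.id : X0.Tan →ₗ[ℂ] X0.Tan).restrictScalars ℝ :=
      LinearMap.ext_on_range (v := X0.per) (Pool.Agent.W547.KB.span_perX X0) fun v => by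
        change ΨR (ΨI (X0.per v)) = X0.per v
        rw [hI, hR, hRI]
    exact congrArg (fun f => f t) h5
  refine ⟨X0, fun i => (h1 i).1, h1, h2, LinearEquiv.ofLinearMap R I (LinearMap.ext hRI)
    (LinearMap.ext hIR), LinearEquiv.ofLinearMap ΨR ΨI (LinearMap.ext h4) (LinearMap.ext h3),
    fun v => hR v⟩

end

end Pool.Agent.K4H34.DB
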