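import Mathlib
import Pool.Agent.K4H34.DB.Dec
import Pool.Agent.K4H21.DB.Cs

/-!
# The simple factors with complex multiplication of an abelian variety
-/

set_option autoImplicit false

namespace Pool.Agent.K4H34.DB

open Module NumberField Pool.Agent.Y90 Pool.Agent.R915 Pool.Agent.K4H29.HC Pool.Agent.K4H21.DB
open Pool.Agent.W547.KB (CMPair CMAV)
open Pool.Agent.W547.LN (SameType)

/-- **The part with complex multiplication of an abelian variety.** -/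
theorem dec (X : AV) : ∃ X0 : CMAV, (∀ i, IsCMFactor (X0.factor i) X) ∧
    (∀ A : CMPair, IsCMFactor A X → ∃ i, SameType A (X0.factor i)) ∧
    (∀ Y, IsFactor Y X → HasCMult Y → ∃ i, IsOfType Y (X0.factor i)) ∧
    ∃ (I : (toAV X0).H →ₗ[ℚ] X.H) (R : X.H →ₗ[ℚ] (toAV X0).H), IsHom (toAV X0) X I ∧
      IsHom X (toAV X0) R ∧ (∀ v, R (I v) = v) ∧
      ((∀ Y, IsFactor Y X → HasCMult Y) → ∀ v, I (R v) = v) := by
  obtain ⟨X0, h1, h2, h3, I, R, ΨI, ΨR, hI, hR, hRI, hIR⟩ := exists_part X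
  exact ⟨X0, h1, h2, h3, I, R, ⟨ΨI, hI⟩, ⟨ΨR, hR⟩, hRI, hIR⟩

end Pool.Agent.K4H34.DB
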