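import Mathlib

/-!
# The forms of the highest degree over a number field
-/

set_option autoImplicit false
set_option linter.unusedSectionVars false
set_option linter.unusedVariables false

namespace Pool.Agent.K4H34.DB

open Module Polynomial

/-- The `n`-th powers span a field of characteristic zero over the rational numbers. -/
theorem span_pow {T : Type} [Field T] [CharZero T] {n : ℕ} (hn : 0 < n) :
    Submodule.span ℚ (Set.range fun t : T => t ^ n) = ⊤ := by
  by_contra hcon
  obtain ⟨x, hx⟩ : ∃ x, x ∉ Submodule.span ℚ (Set.range fun t : T => t ^ n) := by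
    by_contra h
    push Not at h
    exact hcon (eq_top_iff.2 fun x _ => h x)
  obtain ⟨φ, hφx, hφ⟩ := Submodule.exists_le_ker_of_notMem hx
  have h1 : ∀ t : T, φ (t ^ n) = 0 := fun t => hφ (Submodule.subset_span ⟨t, rfl⟩)
  apply hφx
  let P : ℚ[X] := ∑ k ∈ Finset.range (n + 1), C (φ (x ^ k) * (n.choose k)) * X ^ (n - k)
  have hP : P = 0 := by
    refine Polynomial.funext fun m => ?_
    rw [eval_zero, ← h1 (x + (m : T))]
    rw [add_pow, map_sum, eval_finsetSum]
    refine Finset.sum_congr rfl fun k _ => ?_
    rw [eval_mul, eval_C, eval_pow, eval_X]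
    have h2 : x ^ k * (m : T) ^ (n - k) * ((n.choose k : ℕ) : T) =
        (m ^ (n - k) * (n.choose k : ℚ)) • x ^ k := by
      rw [Rat.smul_def]
      push_cast
      ring
    rw [h2, map_smul, smul_eq_mul]
    ring
  have h3 : P.coeff (n - 1) = 0 := by rw [hP, coeff_zero]
  have h4 : P.coeff (n - 1) = φ (x ^ 1) * (n.choose 1) := by
    rw [finsetSum_coeff, Finset.sum_eq_single 1]
    · rw [coeff_C_mul, coeff_X_pow, if_pos rfl, mul_one]
    · intro k hk hk1
      rw [coeff_C_mul, coeff_X_pow, if_neg, mul_zero]
      rw [Finset.mem_range] at hk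
      omega
    · intro h
      exact absurd (Finset.mem_range.2 (by omega)) h
  rw [h4, Nat.choose_one_right, pow_one] at h3
  rcases mul_eq_zero.1 h3 with h5 | h5
  · exact h5
  · exact absurd h5 (by exact_mod_cast hn.ne')

section forms

variable {T V : Type} [Field T] [NumberField T] [AddCommGroup V] [Module ℚ V]
  [FiniteDimensional ℚ V] {n : ℕ}

/-- The multiplication by elements of `T` can be moved from one variable to another. -/
def IsW (act : T →+* Module.End ℚ V) (f : V [⋀^Fin n]→ₗ[ℚ] ℚ) : Prop :=
  ∀ (t : T) (v : Fin n → V) (k l : Fin n),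
    f (Function.update v k (act t (v k))) = f (Function.update v l (act t (v l)))

section module

variable [Module T V] [IsScalarTower ℚ T V]

theorem finrank_T (hV : finrank ℚ V = n * finrank ℚ T) : finrank T V = n := by
  have h1 : finrank ℚ T * finrank T V = finrank ℚ V := finrank_mul_finrank ℚ T V
  have h2 : 0 < finrank ℚ T := finrank_pos
  rw [hV, mul_comm] at h1
  exact Nat.eq_of_mul_eq_mul_right h2 h1

/-- The form with values in `T`. -/
theorem exists_form [NeZero n] (f : V [⋀^Fin n]→ₗ[ℚ] ℚ)
    (hf : ∀ (t : T) (v : Fin n → V) (k l : Fin n),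
      f (Function.update v k (t • v k)) = f (Function.update v l (t • v l))) :
    ∃ F : V [⋀^Fin n]→ₗ[T] T, ∀ (s : T) (v : Fin n → V),
      Algebra.trace ℚ T (s * F v) = f (Function.update v 0 (s • v 0)) := by
  classical
  let e := Module.finBasis ℚ T
  let d := (Algebra.traceForm ℚ T).dualBasis (traceForm_nondegenerate ℚ T) e
  let F0 : (Fin n → V) → T := fun v => ∑ i, f (Function.update v 0 (e i • v 0)) • d i
  -- linearity in s
  have hlin : ∀ v : Fin n → V, ∀ s : T, f (Function.update v 0 (s • v 0)) =
      ∑ i, e.repr s i * f (Function.update v 0 (e i • v 0)) := by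
    intro v s
    let g : T →ₗ[ℚ] ℚ :=
      { toFun := fun s => f (Function.update v 0 (s • v 0))
        map_add' := fun a b => by rw [add_smul, AlternatingMap.map_update_add]
        map_smul' := fun a b => by
          rw [smul_assoc, AlternatingMap.map_update_smul]; rfl }
    change g s = _
    conv_lhs => rw [← e.sum_repr s, map_sum]
    refine Finset.sum_congr rfl fun i _ => ?_
    rw [map_smul, smul_eq_mul]
    rfl
  have htr : ∀ (s : T) (v : Fin n → V),
      Algebra.trace ℚ T (s * F0 v) = f (Function.update v 0 (s • v 0)) := by
    intro s v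
    rw [hlin]
    change Algebra.trace ℚ T (s * ∑ i, f (Function.update v 0 (e i • v 0)) • d i) = _
    rw [Finset.mul_sum, map_sum]
    refine Finset.sum_congr rfl fun i _ => ?_
    rw [mul_smul_comm, map_smul, smul_eq_mul, mul_comm]
    congr 1
    have h1 : ∀ k, Algebra.trace ℚ T (e k * d i) = if k = i then 1 else 0 := by
      intro k
      have h2 := LinearMap.BilinForm.apply_dualBasis_right (traceForm_nondegenerate ℚ T)
        (Algebra.traceForm_isSymm ℚ) e k i
      rw [Algebra.traceForm_apply] at h2
      rw [h2]
    conv_lhs => rw [← e.sum_repr s, Finset.sum_mul, map_sum]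
    rw [Finset.sum_eq_single i]
    · rw [smul_mul_assoc, map_smul, h1, if_pos rfl, smul_eq_mul, mul_one]
    · intro k _ hk
      rw [smul_mul_assoc, map_smul, h1, if_neg hk, smul_zero]
    · intro h
      exact absurd (Finset.mem_univ _) h
  -- uniqueness
  have huniq : ∀ x y : T, (∀ s : T, Algebra.trace ℚ T (s * x) = Algebra.trace ℚ T (s * y)) →
      x = y := by
    intro x y h
    have h1 := (traceForm_nondegenerate ℚ T).1 (x - y) (by
      intro s
      rw [Algebra.traceForm_apply, sub_mul, map_sub, mul_comm x, mul_comm y, h s, sub_self])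
    exact sub_eq_zero.1 h1
  have hcomm : ∀ (v : Fin n → V) (k : Fin n) (x : V), k ≠ 0 → ∀ s : T,
      Function.update (Function.update v k x) 0 (s • (Function.update v k x) 0) =
        Function.update (Function.update v 0 (s • v 0)) k x := by
    intro v k x hk s
    rw [Function.update_of_ne hk.symm, Function.update_comm hk]
  have hzero : ∀ (v : Fin n → V) (x : V) (s : T),
      Function.update (Function.update v 0 x) 0 (s • (Function.update v 0 x) 0) =
        Function.update v 0 (s • x) := by
    intro v x s
    rw [Function.update_self, Function.update_idem]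
  refine ⟨{ toFun := F0
            map_update_add' := ?_
            map_update_smul' := ?_
            map_eq_zero_of_eq' := ?_ }, htr⟩
  · intro hd v k x y
    have hdd : hd = instDecidableEqFin n := Subsingleton.elim _ _
    subst hdd
    apply huniq
    intro s
    rw [mul_add, map_add, htr, htr, htr]
    by_cases hk : k = 0
    · subst hk
      rw [hzero, hzero, hzero, smul_add, AlternatingMap.map_update_add]
    · rw [hcomm v k _ hk, hcomm v k _ hk, hcomm v k _ hk, AlternatingMap.map_update_add]
  · intro hd v k t x
    have hdd : hd = instDecidableEqFin n := Subsingleton.elim _ _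
    subst hdd
    apply huniq
    intro s
    rw [htr, smul_eq_mul, ← mul_assoc, htr]
    by_cases hk : k = 0
    · subst hk
      rw [hzero, hzero, mul_smul]
    · rw [hcomm v k _ hk, hcomm v k _ hk]
      have h1 := hf t (Function.update (Function.update v 0 (s • v 0)) k x) k 0
      rw [Function.update_self, Function.update_idem] at h1
      rw [h1]
      congr 1
      rw [Function.update_of_ne (Ne.symm hk), Function.update_self]
      rw [Function.update_comm hk, Function.update_idem, smul_smul, mul_comm s t]
  · intro v i k hik hne
    apply huniq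
    intro s
    rw [htr, mul_zero, map_zero]
    have key : ∀ k : Fin n, k ≠ 0 → v 0 = v k → f (Function.update v 0 (s • v 0)) = 0 := by
      intro k hk h0
      have h1 := hf s v 0 k
      have h2 : Function.update v k (s • v k) =
          (Function.update v 0 (s • v 0)) ∘ Equiv.swap 0 k := by
        funext l
        rw [Function.comp_apply]
        by_cases hl0 : l = 0
        · subst hl0
          rw [Equiv.swap_apply_left, Function.update_of_ne (Ne.symm hk), Function.update_of_ne hk,
            h0]
        · by_cases hlk : l = k
          · subst hlk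
            rw [Equiv.swap_apply_right, Function.update_self, Function.update_self, h0]
          · rw [Equiv.swap_apply_of_ne_of_ne hl0 hlk, Function.update_of_ne hlk,
              Function.update_of_ne hl0]
      rw [h2, f.map_swap _ (Ne.symm hk)] at h1
      linarith
    by_cases hi : i = 0
    · subst hi
      exact key k (Ne.symm hne) hik
    · by_cases hk : k = 0
      · subst hk
        exact key i hi hik.symm
      · refine f.map_eq_zero_of_eq _ ?_ hne
        rw [Function.update_of_ne hi, Function.update_of_ne hk, hik]

/-- One nonzero form generates. -/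
theorem mem_span_of_form (hn : 0 < n) (hV : finrank T V = n)
    (f g : V [⋀^Fin n]→ₗ[ℚ] ℚ)
    (hf : ∀ (t : T) (v : Fin n → V) (k l : Fin n),
      f (Function.update v k (t • v k)) = f (Function.update v l (t • v l)))
    (hg : ∀ (t : T) (v : Fin n → V) (k l : Fin n),
      g (Function.update v k (t • v k)) = g (Function.update v l (t • v l)))
    (hf0 : f ≠ 0) (m : T → (V →ₗ[ℚ] V)) (hm : ∀ t v, m t v = t • v) :
    g ∈ Submodule.span ℚ (Set.range fun t : T => f.compLinearMap (m t)) := by
  classical
  have : NeZero n := ⟨hn.ne'⟩
  have hfin : FiniteDimensional T V := Module.Finite.of_restrictScalars_finite ℚ T V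
  let e : Basis (Fin n) T V := (Module.finBasis T V).reindex (finCongr hV)
  obtain ⟨F, hF⟩ := exists_form (T := T) f hf
  obtain ⟨G, hG⟩ := exists_form (T := T) g hg
  have hF1 : ∀ v, f v = Algebra.trace ℚ T (F e * e.det v) := by
    intro v
    have h1 := hF 1 v
    rw [one_smul, Function.update_eq_self, one_mul] at h1
    rw [← h1]
    congr 1
    conv_lhs => rw [F.eq_smul_basis_det e]
    rw [AlternatingMap.smul_apply, smul_eq_mul]
  have hG1 : ∀ v, g v = Algebra.trace ℚ T (G e * e.det v) := by
    intro v
    have h1 := hG 1 v
    rw [one_smul, Function.update_eq_self, one_mul] at h1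
    rw [← h1]
    congr 1
    conv_lhs => rw [G.eq_smul_basis_det e]
    rw [AlternatingMap.smul_apply, smul_eq_mul]
  have hα : F e ≠ 0 := by
    intro h
    apply hf0
    ext v
    rw [hF1, h, zero_mul, map_zero]
    rfl
  have hpow : ∀ (t : T) (v : Fin n → V), (f.compLinearMap (m t)) v =
      Algebra.trace ℚ T (t ^ n * (F e * e.det v)) := by
    intro t v
    rw [AlternatingMap.compLinearMap_apply, hF1]
    congr 1
    have h1 : (fun i => m t (v i)) = fun i => t • v i := funext fun i => hm t (v i)
    have h2 := e.det.toMultilinearMap.map_smul_univ (fun _ => t) v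
    simp only [Finset.prod_const, Finset.card_univ, Fintype.card_fin] at h2
    have h3 : e.det (fun i => m t (v i)) = t ^ n * e.det v := by
      rw [h1]
      exact h2
    rw [h3]
    ring
  have hmem : ∀ γ ∈ Submodule.span ℚ (Set.range fun t : T => t ^ n),
      ∃ h ∈ Submodule.span ℚ (Set.range fun t : T => f.compLinearMap (m t)),
        ∀ v, h v = Algebra.trace ℚ T (γ * (F e * e.det v)) := by
    intro γ hγ
    induction hγ using Submodule.span_induction with
    | mem γ hγ =>
      obtain ⟨t, rfl⟩ := hγ
      exact ⟨_, Submodule.subset_span ⟨t, rfl⟩, hpow t⟩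
    | zero => exact ⟨0, Submodule.zero_mem _, fun v => by simp⟩
    | add a b _ _ ha hb =>
      obtain ⟨h, h1, h2⟩ := ha
      obtain ⟨h', h3, h4⟩ := hb
      refine ⟨h + h', Submodule.add_mem _ h1 h3, fun v => ?_⟩
      rw [AlternatingMap.add_apply, h2, h4, add_mul, map_add]
    | smul c a _ ha =>
      obtain ⟨h, h1, h2⟩ := ha
      refine ⟨c • h, Submodule.smul_mem _ c h1, fun v => ?_⟩
      rw [AlternatingMap.smul_apply, h2, smul_mul_assoc, map_smul]
  obtain ⟨h, h1, h2⟩ := hmem (G e / F e) (by rw [span_pow hn]; trivial)
  have h3 : g = h := by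
    ext v
    rw [h2, hG1, ← mul_assoc, div_mul_cancel₀ _ hα]
  rw [h3]
  exact h1

/-- There is a nonzero form. -/
theorem exists_nonzero_form (hn : 0 < n) (hV : finrank T V = n) :
    ∃ f : V [⋀^Fin n]→ₗ[ℚ] ℚ, f ≠ 0 ∧ ∀ (t : T) (v : Fin n → V) (k l : Fin n),
      f (Function.update v k (t • v k)) = f (Function.update v l (t • v l)) := by
  classical
  have hfin : FiniteDimensional T V := Module.Finite.of_restrictScalars_finite ℚ T V
  let e : Basis (Fin n) T V := (Module.finBasis T V).reindex (finCongr hV)
  refine ⟨{ toFun := fun v => Algebra.trace ℚ T (e.det v)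
            map_update_add' := ?_
            map_update_smul' := ?_
            map_eq_zero_of_eq' := ?_ }, ?_, ?_⟩
  · intro hd v k x y
    have hdd : hd = instDecidableEqFin n := Subsingleton.elim _ _
    subst hdd
    rw [AlternatingMap.map_update_add, map_add]
  · intro hd v k c x
    have hdd : hd = instDecidableEqFin n := Subsingleton.elim _ _
    subst hdd
    have h1 : c • x = (algebraMap ℚ T c) • x := (algebraMap_smul T c x).symm
    rw [h1, AlternatingMap.map_update_smul, smul_eq_mul, ← Algebra.smul_def, map_smul]
  · intro v i k hik hne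
    rw [e.det.map_eq_zero_of_eq v hik hne, map_zero]
  · intro h
    have h1 := DFunLike.congr_fun h (e : Fin n → V)
    change Algebra.trace ℚ T (e.det e) = 0 at h1
    rw [Basis.det_self, ← map_one (algebraMap ℚ T), Algebra.trace_algebraMap] at h1
    have h2 : 0 < finrank ℚ T := finrank_pos
    rw [nsmul_eq_mul, mul_one] at h1
    exact h2.ne' (by exact_mod_cast h1)
  · intro t v k l
    change Algebra.trace ℚ T (e.det (Function.update v k (t • v k))) =
      Algebra.trace ℚ T (e.det (Function.update v l (t • v l)))
    rw [AlternatingMap.map_update_smul, AlternatingMap.map_update_smul, Function.update_eq_self,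
      Function.update_eq_self]

end module

/-- The module structure given by the action. -/
@[reducible] def actModule (act : T →+* Module.End ℚ V) : Module T V := Module.compHom V act

theorem act_tower (act : T →+* Module.End ℚ V) :
    @IsScalarTower ℚ T V _ (actModule act).toSMul _ := by
  let _ := actModule act
  refine ⟨fun c t v => ?_⟩
  change act (c • t) v = c • act t v
  have h1 : c • t = algebraMap ℚ T c * t := Algebra.smul_def c t
  rw [h1, map_mul, Module.End.mul_apply]
  have h2 : act (algebraMap ℚ T c) = algebraMap ℚ (Module.End ℚ V) c := by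
    have h3 : (act.comp (algebraMap ℚ T)) = algebraMap ℚ (Module.End ℚ V) := Subsingleton.elim _ _
    exact RingHom.congr_fun h3 c
  rw [h2]
  rfl

/-- **One nonzero form determines all others.** -/
theorem isW_mem_span (act : T →+* Module.End ℚ V) (hn : 0 < n)
    (hV : finrank ℚ V = n * finrank ℚ T) (f g : V [⋀^Fin n]→ₗ[ℚ] ℚ) (hf : IsW act f)
    (hg : IsW act g) (hf0 : f ≠ 0) :
    g ∈ Submodule.span ℚ (Set.range fun t : T => f.compLinearMap (act t)) := by
  let _ := actModule act
  have _ := act_tower act
  exact mem_span_of_form (T := T) hn (finrank_T hV) f g hf hg hf0 (fun t => act t) (fun t v => rfl)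

theorem exists_isW (act : T →+* Module.End ℚ V) (hn : 0 < n)
    (hV : finrank ℚ V = n * finrank ℚ T) : ∃ f : V [⋀^Fin n]→ₗ[ℚ] ℚ, f ≠ 0 ∧ IsW act f := by
  let _ := actModule act
  have _ := act_tower act
  exact exists_nonzero_form (T := T) hn (finrank_T hV)

end forms

end Pool.Agent.K4H34.DB
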