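import Mathlib
import Pool.Agent.K4H21.DB.Rep

/-!
# Relations between at most ten half systems

The relations between the sign vectors of at most ten half systems (that is, of an abelian variety
with complex multiplication such that the product of the pairwise non-isogenous simple factors has
dimension at most five) are the multiples of one relation, with the coefficients `(1, 1, 1, 1)` or
`(1, 1, 1, 1, 2)`, up to signs.
-/

set_option linter.unusedSectionVars false
set_option linter.unusedVariables false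
set_option autoImplicit false

namespace Pool.Agent.K4H34.DB

open NumberField Module
open Pool.Agent.W547.KB (cc IsHalf)
open Pool.Agent.W547.LD (tr mem_tr tr_one tr_tr tr_compl tr_inv_tr tr_tr_inv tr_injective tr_cc
  ne_compl Orb)
open Pool.Agent.K4H34.VR (Short nrm nrm_smul nrm_neg nrm_comp nrm_pos nrm_nonneg)
open Pool.Agent.K4H21.DB

noncomputable section

section comb

variable {G : Type} [Fintype G] {P : Set (Set G)} {v w : Set G → ℤ}

open Classical in
/-- The sets with positive coefficient. -/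
def pos (v : Set G → ℤ) : Finset (Set G) := Finset.univ.filter fun S => 0 < v S

open Classical in
/-- The sets with nonzero coefficient. -/
def sup (v : Set G → ℤ) : Finset (Set G) := Finset.univ.filter fun S => v S ≠ 0

theorem mem_pos {S : Set G} : S ∈ pos v ↔ 0 < v S := by
  unfold pos
  rw [Finset.mem_filter]
  exact ⟨fun h => h.2, fun h => ⟨Finset.mem_univ _, h⟩⟩

theorem mem_sup {S : Set G} : S ∈ sup v ↔ v S ≠ 0 := by
  unfold sup
  rw [Finset.mem_filter]
  exact ⟨fun h => h.2, fun h => ⟨Finset.mem_univ _, h⟩⟩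

theorem sg_or (S : Set G) (σ : G) : sg S σ = 1 ∨ sg S σ = -1 := by
  unfold sg
  by_cases h : σ ∈ S
  · exact Or.inl (if_pos h)
  · exact Or.inr (if_neg h)

theorem rel_pos (hv : v ∈ Lam P) (σ : G) : ∑ S ∈ pos v, v S * sg S σ = 0 := by
  classical
  have h1 : ∀ S, v S * sg S σ = (if 0 < v S then v S * sg S σ else 0) +
      (if 0 < v Sᶜ then v Sᶜ * sg Sᶜ σ else 0) := by
    intro S
    rw [hv.2.1 S, sg_compl]
    rcases lt_trichotomy (v S) 0 with h | h | h
    · rw [if_neg (by omega), if_pos (by omega)]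
      ring
    · rw [h]
      simp
    · rw [if_pos h, if_neg (by omega), add_zero]
  have h2 := hv.2.2 σ
  rw [Finset.sum_congr rfl fun S _ => h1 S, Finset.sum_add_distrib] at h2
  have h3 : ∑ S : Set G, (if 0 < v Sᶜ then v Sᶜ * sg Sᶜ σ else 0) =
      ∑ S : Set G, (if 0 < v S then v S * sg S σ else 0) :=
    Equiv.sum_comp (Equiv.mk compl compl (compl_compl ·) (compl_compl ·) : Set G ≃ Set G)
      fun S => if 0 < v S then v S * sg S σ else 0
  rw [h3] at h2
  have h4 : ∑ S ∈ pos v, v S * sg S σ = ∑ S : Set G, (if 0 < v S then v S * sg S σ else 0) := by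
    unfold pos
    rw [Finset.sum_filter]
  rw [h4]
  omega

theorem exists_sg_eq {S T : Set G} (h : T ≠ Sᶜ) : ∃ σ, sg S σ = sg T σ := by
  by_contra hcon
  push Not at hcon
  apply h
  ext σ
  have h1 := hcon σ
  unfold sg at h1
  by_cases h2 : σ ∈ S <;> by_cases h3 : σ ∈ T
  · rw [if_pos h2, if_pos h3] at h1
    exact absurd rfl h1
  · exact ⟨fun h => absurd h h3, fun h => absurd h2 h⟩
  · exact ⟨fun _ => h2, fun _ => h3⟩
  · rw [if_neg h2, if_neg h3] at h1
    exact absurd rfl h1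

/-- The pair inequality. -/
theorem pair_le (hv : v ∈ Lam P) {S T : Set G} (hS : S ∈ pos v) (hT : T ∈ pos v) (hne : S ≠ T) :
    2 * (v S + v T) ≤ ∑ U ∈ pos v, v U := by
  classical
  have hS' := mem_pos.1 hS
  have hT' := mem_pos.1 hT
  obtain ⟨σ, hσ⟩ : ∃ σ, sg S σ = sg T σ := exists_sg_eq (by
    rintro rfl
    rw [hv.2.1] at hT'
    omega)
  have h1 := rel_pos hv σ
  have h2 : ∑ U ∈ pos v, v U * (sg S σ * sg U σ + 1) = ∑ U ∈ pos v, v U := by
    have h3 : ∀ U, v U * (sg S σ * sg U σ + 1) = sg S σ * (v U * sg U σ) + v U := fun U => by ring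
    rw [Finset.sum_congr rfl fun U _ => h3 U, Finset.sum_add_distrib, ← Finset.mul_sum, h1,
      mul_zero, zero_add]
  rw [← h2]
  have h4 : ∑ U ∈ ({S, T} : Finset (Set G)), v U * (sg S σ * sg U σ + 1) ≤
      ∑ U ∈ pos v, v U * (sg S σ * sg U σ + 1) := by
    refine Finset.sum_le_sum_of_subset_of_nonneg ?_ ?_
    · intro U hU
      rcases Finset.mem_insert.1 hU with h | h
      · rw [h]
        exact hS
      · rw [Finset.mem_singleton.1 h]
        exact hT
    · intro U hU _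
      have h5 := mem_pos.1 hU
      refine mul_nonneg h5.le ?_
      rcases sg_or S σ with h | h <;> rcases sg_or U σ with h' | h' <;> rw [h, h'] <;> norm_num
  rw [Finset.sum_pair hne] at h4
  have h5 : sg S σ * sg S σ = 1 := by
    rcases sg_or S σ with h | h <;> rw [h] <;> norm_num
  rw [← hσ, h5] at h4
  linarith

/-- Relations have at least four positive coefficients, and four only if they are equal. -/
theorem card_pos_ge (hG : Nonempty G) (hv : v ∈ Lam P) (h0 : (pos v).Nonempty) :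
    4 ≤ (pos v).card ∧ ((pos v).card = 4 → ∀ S ∈ pos v, ∀ T ∈ pos v, v S = v T) := by
  classical
  obtain ⟨N, hN⟩ : ∃ N, N = ∑ U ∈ pos v, v U := ⟨_, rfl⟩
  obtain ⟨n, hn⟩ : ∃ n, n = (pos v).card := ⟨_, rfl⟩
  have hpos : ∀ S ∈ pos v, 0 < v S := fun S hS => mem_pos.1 hS
  have hN0 : 0 < N := by
    rw [hN]
    exact Finset.sum_pos hpos h0
  have hterm : ∀ S ∈ pos v, ∀ U ∈ (pos v).erase S, 0 ≤ N - 2 * (v S + v U) := by
    intro S hS U hU
    have h1 := pair_le hv hS (Finset.mem_of_mem_erase hU) (Finset.ne_of_mem_erase hU).symm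
    rw [← hN] at h1
    linarith
  have hinner : ∀ S ∈ pos v, ∑ U ∈ (pos v).erase S, (N - 2 * (v S + v U)) =
      ((n : ℤ) - 3) * N - (2 * n - 4) * v S := by
    intro S hS
    have h1 : ∑ U ∈ pos v, (N - 2 * (v S + v U)) = n * N - 2 * n * v S - 2 * N := by
      have e : ∀ U, N - 2 * (v S + v U) = (N - 2 * v S) - 2 * v U := fun U => by ring
      rw [Finset.sum_congr rfl fun U _ => e U, Finset.sum_sub_distrib, Finset.sum_const,
        ← Finset.mul_sum, ← hN, nsmul_eq_mul, ← hn]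
      ring
    have h2 := Finset.add_sum_erase (pos v) (fun U => N - 2 * (v S + v U)) hS
    rw [h1] at h2
    linarith
  have htot : ∑ S ∈ pos v, ∑ U ∈ (pos v).erase S, (N - 2 * (v S + v U)) =
      ((n : ℤ) - 1) * (n - 4) * N := by
    rw [Finset.sum_congr rfl hinner, Finset.sum_sub_distrib, Finset.sum_const, ← Finset.mul_sum,
      ← hN, nsmul_eq_mul, ← hn]
    ring
  have hge : 0 ≤ ((n : ℤ) - 1) * (n - 4) * N := by
    rw [← htot]
    exact Finset.sum_nonneg fun S hS => Finset.sum_nonneg (hterm S hS)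
  have hn2 : 2 ≤ n := by
    by_contra hcon
    have h1 : (pos v).card = 1 := by
      have := Finset.card_pos.2 h0
      omega
    obtain ⟨S, hS⟩ := Finset.card_eq_one.1 h1
    obtain ⟨σ⟩ := hG
    have h2 := rel_pos hv σ
    rw [hS, Finset.sum_singleton] at h2
    have h3 := hpos S (by rw [hS]; exact Finset.mem_singleton_self S)
    rcases sg_or S σ with h | h <;> rw [h] at h2 <;> omega
  have hn4 : 4 ≤ n := by
    by_contra hcon
    have h1 : ((n : ℤ) - 1) * (n - 4) < 0 := mul_neg_of_pos_of_neg (by omega) (by omega)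
    have h2 := mul_neg_of_neg_of_pos h1 hN0
    linarith
  rw [← hn]
  refine ⟨hn4, fun h4 => ?_⟩
  have hz : ∑ S ∈ pos v, ∑ U ∈ (pos v).erase S, (N - 2 * (v S + v U)) = 0 := by
    rw [htot, h4]
    norm_num
  have hz1 := (Finset.sum_eq_zero_iff_of_nonneg fun S hS =>
    Finset.sum_nonneg (hterm S hS)).1 hz
  have heq : ∀ S ∈ pos v, ∀ U ∈ pos v, S ≠ U → 2 * (v S + v U) = N := by
    intro S hS U hU hne
    have h1 := (Finset.sum_eq_zero_iff_of_nonneg (hterm S hS)).1 (hz1 S hS) U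
      (Finset.mem_erase.2 ⟨hne.symm, hU⟩)
    linarith
  intro S hS T hT
  by_cases hST : S = T
  · rw [hST]
  · have h1 : 0 < (((pos v).erase S).erase T).card := by
      rw [Finset.card_erase_of_mem (Finset.mem_erase.2 ⟨Ne.symm hST, hT⟩),
        Finset.card_erase_of_mem hS, ← hn, h4]
      norm_num
    obtain ⟨W, hW⟩ := Finset.card_pos.1 h1
    have h2 := Finset.mem_erase.1 hW
    have h3 := Finset.mem_erase.1 h2.2
    have h4 := heq S hS W h3.2 (Ne.symm h3.1)
    have h5 := heq T hT W h3.2 (Ne.symm h2.1)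
    linarith

theorem card_sup (hv : ∀ S, v Sᶜ = -v S) : (sup v).card = 2 * (pos v).card := by
  classical
  have h1 : sup v = pos v ∪ (pos v).image compl := by
    ext S
    rw [mem_sup, Finset.mem_union, mem_pos, Finset.mem_image]
    constructor
    · intro h
      rcases lt_or_gt_of_ne h with h' | h'
      · refine Or.inr ⟨Sᶜ, ?_, compl_compl S⟩
        rw [mem_pos, hv]
        omega
      · exact Or.inl h'
    · rintro (h | ⟨T, hT, rfl⟩)
      · omega
      · rw [mem_pos] at hT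
        rw [hv]
        omega
  rw [h1, Finset.card_union_of_disjoint, Finset.card_image_of_injective _ compl_injective]
  · ring
  · rw [Finset.disjoint_left]
    intro S hS hS'
    obtain ⟨T, hT, rfl⟩ := Finset.mem_image.1 hS'
    rw [mem_pos] at hS hT
    rw [hv] at hS
    omega

theorem pos_nonempty (hv : ∀ S, v Sᶜ = -v S) (h0 : v ≠ 0) : (pos v).Nonempty := by
  obtain ⟨S, hS⟩ := Function.ne_iff.1 h0
  rcases lt_or_gt_of_ne hS with h | h
  · refine ⟨Sᶜ, mem_pos.2 ?_⟩
    rw [hv]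
    have h' : v S < 0 := h
    omega
  · exact ⟨S, mem_pos.2 h⟩

/-- The support of a relation has at least eight elements, and eight only if the coefficients have
the same absolute value. -/
theorem card_sup_ge (hG : Nonempty G) (hv : v ∈ Lam P) (h0 : v ≠ 0) :
    8 ≤ (sup v).card ∧ ((sup v).card = 8 → ∃ m : ℤ, 0 < m ∧ ∀ S ∈ sup v, v S = m ∨ v S = -m) := by
  have h1 := pos_nonempty hv.2.1 h0
  obtain ⟨h2, h3⟩ := card_pos_ge hG hv h1
  rw [card_sup hv.2.1]
  refine ⟨by omega, fun h4 => ?_⟩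
  have h5 := h3 (by omega)
  obtain ⟨S0, hS0⟩ := h1
  refine ⟨v S0, mem_pos.1 hS0, fun S hS => ?_⟩
  rcases lt_or_gt_of_ne (mem_sup.1 hS) with h | h
  · right
    have h6 := h5 Sᶜ (by rw [mem_pos, hv.2.1]; omega) S0 hS0
    rw [hv.2.1] at h6
    omega
  · exact Or.inl (h5 S (mem_pos.2 h) S0 hS0)

theorem sup_subset (hv : v ∈ Lam P) {S : Set G} (hS : S ∈ sup v) : S ∈ P := by
  by_contra h
  exact mem_sup.1 hS (hv.1 S h)

/-- The relations between at most ten half systems are multiples of one relation. -/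
theorem exists_dep (hG : Nonempty G) (hP : P.ncard ≤ 10) (hc : ∀ S ∈ P, Sᶜ ∈ P)
    (hv : v ∈ Lam P) (hw : w ∈ Lam P) :
    ∃ a b : ℤ, (a ≠ 0 ∨ b ≠ 0) ∧ a • v + b • w = 0 := by
  classical
  by_contra hcon
  push Not at hcon
  have hmem : ∀ a b : ℤ, a • v + b • w ∈ Lam P := fun a b =>
    (Lam P).add_mem ((Lam P).smul_mem a hv) ((Lam P).smul_mem b hw)
  have key : ∀ S ∈ P, ∃ u ∈ Lam P, u ≠ 0 ∧ u S = 0 := by
    intro S hS
    by_cases h : v S = 0 ∧ w S = 0
    · refine ⟨v, hv, ?_, h.1⟩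
      have h1 := hcon 1 0 (Or.inl one_ne_zero)
      rwa [one_smul, zero_smul, add_zero] at h1
    · refine ⟨(w S) • v + (-(v S)) • w, hmem _ _, hcon _ _ ?_, ?_⟩
      · by_contra hh
        push Not at hh
        exact h ⟨by linarith [hh.2], hh.1⟩
      · change w S * v S + -(v S) * w S = 0
        ring
  let Pf : Finset (Set G) := P.toFinset
  have hPf : ∀ S, S ∈ Pf ↔ S ∈ P := fun S => Set.mem_toFinset
  have hcard : Pf.card ≤ 10 := by
    rw [← Set.ncard_eq_toFinset_card']
    exact hP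
  have hsub : ∀ u ∈ Lam P, sup u ⊆ Pf := fun u hu S hS => (hPf S).2 (sup_subset hu hS)
  have hne' : ∀ S : Set G, S ≠ Sᶜ := by
    intro S h
    obtain ⟨σ⟩ := hG
    have h1 : σ ∈ S ↔ σ ∉ S := by
      conv_lhs => rw [h]
      exact Iff.rfl
    tauto
  have key2 : ∀ S ∈ P, ∃ u ∈ Lam P, ∃ m : ℤ, 0 < m ∧ u S = 0 ∧ u Sᶜ = 0 ∧
      (∀ T ∈ P, T ≠ S → T ≠ Sᶜ → u T = m ∨ u T = -m) ∧ ∃ T ∈ P, T ≠ S ∧ T ≠ Sᶜ := by
    intro S hS
    obtain ⟨u, hu, hu0, huS⟩ := key S hS
    have huS' : u Sᶜ = 0 := by rw [hu.2.1, huS, neg_zero]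
    obtain ⟨h1, h2⟩ := card_sup_ge hG hu hu0
    have h3 : sup u ⊆ (Pf.erase S).erase Sᶜ := by
      intro T hT
      refine Finset.mem_erase.2 ⟨?_, Finset.mem_erase.2 ⟨?_, hsub u hu hT⟩⟩
      · rintro rfl
        exact mem_sup.1 hT huS'
      · rintro rfl
        exact mem_sup.1 hT huS
    have h4 : ((Pf.erase S).erase Sᶜ).card = Pf.card - 1 - 1 := by
      rw [Finset.card_erase_of_mem (Finset.mem_erase.2 ⟨(hne' S).symm, (hPf _).2 (hc S hS)⟩),
        Finset.card_erase_of_mem ((hPf _).2 hS)]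
    have h5 : sup u = (Pf.erase S).erase Sᶜ := Finset.eq_of_subset_of_card_le h3 (by omega)
    have h6 := Finset.card_le_card h3
    obtain ⟨m, hm, hm'⟩ := h2 (by omega)
    refine ⟨u, hu, m, hm, huS, huS', fun T hT h7 h8 => hm' T ?_, ?_⟩
    · rw [h5]
      exact Finset.mem_erase.2 ⟨h8, Finset.mem_erase.2 ⟨h7, (hPf _).2 hT⟩⟩
    · obtain ⟨T, hT⟩ := Finset.card_pos.1 (show 0 < (sup u).card by omega)
      have h7 := h3 hT
      have h8 := Finset.mem_erase.1 h7
      have h9 := Finset.mem_erase.1 h8.2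
      exact ⟨T, (hPf T).1 h9.2, h9.1, h8.1⟩
  have hv0 : v ≠ 0 := by
    have h1 := hcon 1 0 (Or.inl one_ne_zero)
    rwa [one_smul, zero_smul, add_zero] at h1
  obtain ⟨S1, hS1⟩ := Finset.card_pos.1 (show 0 < (sup v).card by
    have := (card_sup_ge hG hv hv0).1
    omega)
  have hS1P := sup_subset hv hS1
  obtain ⟨u1, hu1, m1, hm1, h11, h12, h13, S2, hS2P, h21, h22⟩ := key2 S1 hS1P
  obtain ⟨u2, hu2, m2, hm2, k11, k12, k13, -⟩ := key2 S2 hS2P
  have h31 : S1 ≠ S2ᶜ := by
    intro h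
    apply h22
    rw [h, compl_compl]
  have hval := k13 S1 hS1P (Ne.symm h21) h31
  have hp : m2 • u1 + m1 • u2 ∈ Lam P :=
    (Lam P).add_mem ((Lam P).smul_mem m2 hu1) ((Lam P).smul_mem m1 hu2)
  have hq : m2 • u1 + (-m1) • u2 ∈ Lam P :=
    (Lam P).add_mem ((Lam P).smul_mem m2 hu1) ((Lam P).smul_mem (-m1) hu2)
  have happ : ∀ T, (m2 • u1 + m1 • u2) T = m2 * u1 T + m1 * u2 T := fun T => rfl
  have haq : ∀ T, (m2 • u1 + (-m1) • u2) T = m2 * u1 T + -m1 * u2 T := fun T => rfl
  have hmm : 0 < m1 * m2 := mul_pos hm1 hm2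
  have hp0 : m2 • u1 + m1 • u2 ≠ 0 := by
    intro h
    have h1 := congrFun h S1
    rw [happ, h11, mul_zero, zero_add] at h1
    have h1' : m1 * u2 S1 = 0 := h1
    rcases hval with h2 | h2 <;> rw [h2] at h1' <;> nlinarith
  have hq0 : m2 • u1 + (-m1) • u2 ≠ 0 := by
    intro h
    have h1 := congrFun h S1
    rw [haq, h11, mul_zero, zero_add] at h1
    have h1' : -m1 * u2 S1 = 0 := h1
    rcases hval with h2 | h2 <;> rw [h2] at h1' <;> nlinarith
  have hp8 := (card_sup_ge hG hp hp0).1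
  have hq8 := (card_sup_ge hG hq hq0).1
  have hun : (sup (m2 • u1 + m1 • u2) ∪ sup (m2 • u1 + (-m1) • u2)).card ≤ 10 :=
    (Finset.card_le_card (Finset.union_subset (hsub _ hp) (hsub _ hq))).trans hcard
  have hin : (sup (m2 • u1 + m1 • u2) ∩ sup (m2 • u1 + (-m1) • u2)).card ≤ 4 := by
    have h1 : sup (m2 • u1 + m1 • u2) ∩ sup (m2 • u1 + (-m1) • u2) ⊆
        ({S1, S1ᶜ, S2, S2ᶜ} : Finset (Set G)) := by
      intro T hT
      obtain ⟨hT1, hT2⟩ := Finset.mem_inter.1 hT
      have hTP := sup_subset hp hT1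
      rw [mem_sup, happ] at hT1
      rw [mem_sup, haq] at hT2
      by_contra hcon'
      rw [Finset.mem_insert, Finset.mem_insert, Finset.mem_insert, Finset.mem_singleton] at hcon'
      push Not at hcon'
      obtain ⟨e1, e2, e3, e4⟩ := hcon'
      rcases h13 T hTP e1 e2 with h | h <;> rcases k13 T hTP e3 e4 with h' | h'
      · apply hT2
        rw [h, h']
        ring
      · apply hT1
        rw [h, h']
        ring
      · apply hT1
        rw [h, h']
        ring
      · apply hT2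
        rw [h, h']
        ring
    exact (Finset.card_le_card h1).trans Finset.card_le_four
  have hui := Finset.card_union_add_card_inter (sup (m2 • u1 + m1 • u2))
    (sup (m2 • u1 + (-m1) • u2))
  omega

theorem mem_of_smul {k : ℤ} (hk : k ≠ 0) (h : k • w ∈ Lam P) : w ∈ Lam P := by
  refine ⟨fun S hS => ?_, fun S => ?_, fun σ => ?_⟩
  · have h1 : k * w S = 0 := h.1 S hS
    exact (mul_eq_zero.1 h1).resolve_left hk
  · have h1 : k * w Sᶜ = -(k * w S) := h.2.1 S
    have h2 : k * (w Sᶜ + w S) = 0 := by linarith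
    have h3 := (mul_eq_zero.1 h2).resolve_left hk
    linarith
  · have h1 : ∑ S, (k * w S) * sg S σ = 0 := h.2.2 σ
    have h2 : k * ∑ S, w S * sg S σ = 0 := by
      rw [Finset.mul_sum, ← h1]
      exact Finset.sum_congr rfl fun S _ => by ring
    exact (mul_eq_zero.1 h2).resolve_left hk

/-- Short relations are primitive. -/
theorem prim_of_short (hv : v ∈ Short (Lam P)) (hw : w ∈ Lam P) {k : ℤ} (h : v = k • w) :
    k = 1 ∨ k = -1 := by
  obtain ⟨-, h0, h1⟩ := hv
  have hk0 : k ≠ 0 := by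
    rintro rfl
    rw [zero_smul] at h
    exact h0 h
  have hw0 : w ≠ 0 := by
    rintro rfl
    rw [smul_zero] at h
    exact h0 h
  have hn := nrm_pos hw0
  by_contra hcon
  push Not at hcon
  have hk : 2 ≤ k ∨ k ≤ -2 := by omega
  have hk2 : 1 < k ^ 2 := by
    rcases hk with hk | hk <;> nlinarith
  have h3 : nrm w < k ^ 2 * nrm w := by
    have h4 : 1 * nrm w < k ^ 2 * nrm w := mul_lt_mul_of_pos_right hk2 hn
    linarith
  rcases hk with hk | hk
  · apply h1 w hw
    · rw [h, nrm_smul]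
      exact h3
    · rw [h, nrm_smul]
      have h2 : k • w - w = (k - 1) • w := by rw [sub_smul, one_smul]
      rw [h2, nrm_smul]
      exact mul_lt_mul_of_pos_right (by nlinarith) hn
  · apply h1 (-w) ((Lam P).neg_mem hw)
    · rw [h, nrm_smul, nrm_neg]
      exact h3
    · rw [h, nrm_smul]
      have h2 : k • w - -w = (k + 1) • w := by rw [sub_neg_eq_add, add_smul, one_smul]
      rw [h2, nrm_smul]
      exact mul_lt_mul_of_pos_right (by nlinarith) hn

theorem prim_dvd (hv : v ∈ Short (Lam P)) {a : ℤ} (h : ∀ U, a ∣ v U) : a = 1 ∨ a = -1 := by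
  choose w hw using h
  have h1 : v = a • w := funext hw
  have h2 : a ≠ 0 := by
    rintro rfl
    rw [zero_smul] at h1
    exact hv.2.1 h1
  have h3 : a • w ∈ Lam P := by
    rw [← h1]
    exact hv.1
  exact prim_of_short hv (mem_of_smul h2 h3) h1

/-- The number of the negative signs. -/
theorem sum_sg (O : Finset (Set G)) (σ : G) :
    ∃ n : ℕ, n ≤ O.card ∧ ∑ T ∈ O, sg T σ = O.card - 2 * n ∧
      (n = 0 → ∀ T ∈ O, sg T σ = 1) ∧ (n = O.card → ∀ T ∈ O, sg T σ = -1) := by
  classical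
  refine ⟨(O.filter fun T => sg T σ = -1).card, Finset.card_filter_le _ _, ?_, ?_, ?_⟩
  · have h1 : ∀ T, sg T σ = 1 - 2 * (if sg T σ = -1 then 1 else 0) := by
      intro T
      rcases sg_or T σ with h | h
      · rw [h]
        norm_num
      · rw [h]
        norm_num
    rw [Finset.sum_congr rfl fun T _ => h1 T, Finset.sum_sub_distrib, Finset.sum_const,
      ← Finset.mul_sum, Finset.sum_boole, nsmul_eq_mul, mul_one]
  · intro h T hT
    rw [Finset.card_eq_zero, Finset.filter_eq_empty_iff] at h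
    exact (sg_or T σ).resolve_right (h hT)
  · intro h T hT
    have h1 := Finset.filter_card_eq h T hT
    exact h1

end comb

section gal

variable {L : Type} [Field L] [NumberField L] [IsCMField L] [IsGalois ℚ L]
  {P : Set (Set (L ≃ₐ[ℚ] L))} {v : Set (L ≃ₐ[ℚ] L) → ℤ}

variable (hH : ∀ S ∈ P, IsHalf S) (hst : ∀ (τ : L ≃ₐ[ℚ] L), ∀ S ∈ P, tr τ S ∈ P)

include hH hst in
theorem compl_mem (j : L →+* ℂ) {S : Set (L ≃ₐ[ℚ] L)} (hS : S ∈ P) : Sᶜ ∈ P := by
  have h1 := hst (cc L) S hS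
  rwa [tr_cc j (hH S hS)] at h1

include hH hst in
/-- The translates of a short relation. -/
theorem tr_eq_or (j : L →+* ℂ) (hP : P.ncard ≤ 10) (hv : v ∈ Short (Lam P)) (τ : L ≃ₐ[ℚ] L) :
    (∀ S, v (tr τ S) = v S) ∨ ∀ S, v (tr τ S) = -v S := by
  have hv' := tr_mem_Lam hst hv.1 τ
  obtain ⟨a, b, hab, h⟩ := exists_dep ⟨1⟩ hP (fun S hS => compl_mem hH hst j hS) hv.1 hv'
  have hn : nrm (fun S => v (tr τ S)) = nrm v := nrm_comp v (trE τ)
  have hv0 := nrm_pos hv.2.1
  have hS : ∀ S, a * v S + b * v (tr τ S) = 0 := fun S => congrFun h S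
  have h1 : a • v = (-b) • (fun S => v (tr τ S)) := by
    rw [neg_smul]
    exact eq_neg_of_add_eq_zero_left h
  have h2 : a ^ 2 * nrm v = b ^ 2 * nrm v := by
    have h3 := congrArg nrm h1
    rw [nrm_smul, nrm_smul, hn, neg_sq] at h3
    exact h3
  have h3 : a ^ 2 = b ^ 2 := mul_right_cancel₀ hv0.ne' h2
  have hb : b ≠ 0 := by
    rintro rfl
    have h4 : a = 0 := by
      have h5 : a ^ 2 = 0 := by rw [h3]; norm_num
      exact pow_eq_zero_iff (two_ne_zero) |>.1 h5
    rcases hab with h5 | h5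
    · exact h5 h4
    · exact h5 rfl
  rcases sq_eq_sq_iff_eq_or_eq_neg.1 h3 with h4 | h4
  · right
    intro S
    have h5 := hS S
    rw [h4] at h5
    have h6 : b * (v S + v (tr τ S)) = 0 := by linarith
    have h7 := (mul_eq_zero.1 h6).resolve_left hb
    linarith
  · left
    intro S
    have h5 := hS S
    rw [h4] at h5
    have h6 : b * (v (tr τ S) - v S) = 0 := by linarith
    have h7 := (mul_eq_zero.1 h6).resolve_left hb
    linarith

include hH hst in
/-- The field of a short relation is imaginary quadratic. -/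
theorem finrank_two (j : L →+* ℂ) (hP : P.ncard ≤ 10) (hv : v ∈ Short (Lam P)) :
    finrank ℚ (fK (stv v)) = 2 := by
  rw [← ncard_trs]
  have h1 : trs v = {v, -v} := by
    ext u
    rw [Set.mem_insert_iff, Set.mem_singleton_iff]
    constructor
    · rintro ⟨τ, rfl⟩
      rcases tr_eq_or hH hst j hP hv τ with h | h
      · exact Or.inl (funext h)
      · exact Or.inr (funext h)
    · rintro (h | h)
      · rw [h]
        exact mem_trs_self v
      · rw [h]
        exact ⟨cc L, funext fun S => tr_cc_neg hH hst j hv.1 S⟩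
  rw [h1, Set.ncard_pair]
  intro h
  apply hv.2.1
  funext S
  have h2 : v S = -v S := congrFun h S
  change v S = 0
  omega

/-- The dimension of the Weil class. -/
theorem card_orb_eq (v : Set (L ≃ₐ[ℚ] L) → ℤ) :
    (Fintype.card (Orb (stv v) (xV v)) : ℤ) = ∑ S ∈ pos v, v S := by
  classical
  have h1 := sum_cntZ (sV v) (fun _ => 1)
  rw [Finset.sum_const, Finset.card_univ, nsmul_eq_mul, mul_one] at h1
  rw [← h1]
  have h2 : ∀ S, cntZ (sV v) S * 1 = if 0 < v S then v S else 0 := by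
    intro S
    rw [mul_one, cntZ_sV]
    split_ifs with h
    · exact Int.toNat_of_nonneg h.le
    · rw [Int.toNat_of_nonpos (by omega)]
      rfl
  rw [Finset.sum_congr rfl fun S _ => h2 S]
  unfold pos
  rw [Finset.sum_filter]

open Classical in
/-- The orbit of a set with positive coefficient under the stabilizer. -/
def orb (v : Set (L ≃ₐ[ℚ] L) → ℤ) (S : Set (L ≃ₐ[ℚ] L)) : Finset (Set (L ≃ₐ[ℚ] L)) :=
  (pos v).filter fun T => ∃ τ ∈ stv v, tr τ S = T

theorem mem_orb {S T : Set (L ≃ₐ[ℚ] L)} :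
    T ∈ orb v S ↔ 0 < v T ∧ ∃ τ ∈ stv v, tr τ S = T := by
  classical
  unfold orb
  exact Finset.mem_filter.trans (and_congr_left' mem_pos)

theorem self_mem_orb {S : Set (L ≃ₐ[ℚ] L)} (hS : S ∈ pos v) : S ∈ orb v S :=
  mem_orb.2 ⟨mem_pos.1 hS, 1, (stv v).one_mem, tr_one S⟩

theorem tr_mem_orb {S T : Set (L ≃ₐ[ℚ] L)} (hT : T ∈ orb v S) {τ : L ≃ₐ[ℚ] L}
    (hτ : τ ∈ stv v) : tr τ T ∈ orb v S := by
  obtain ⟨h1, τ', hτ', rfl⟩ := mem_orb.1 hT
  refine mem_orb.2 ⟨?_, τ * τ', (stv v).mul_mem hτ hτ', (tr_tr _ _ _).symm⟩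
  rw [mem_stv.1 hτ]
  exact h1

theorem v_of_mem_orb {S T : Set (L ≃ₐ[ℚ] L)} (hT : T ∈ orb v S) : v T = v S := by
  obtain ⟨-, τ, hτ, rfl⟩ := mem_orb.1 hT
  exact mem_stv.1 hτ S

theorem mem_orb_symm {S T : Set (L ≃ₐ[ℚ] L)} (hS : S ∈ pos v) (hT : T ∈ orb v S) :
    S ∈ orb v T := by
  obtain ⟨-, τ, hτ, rfl⟩ := mem_orb.1 hT
  exact mem_orb.2 ⟨mem_pos.1 hS, τ⁻¹, (stv v).inv_mem hτ, tr_inv_tr τ S⟩

theorem mem_orb_trans {S T U : Set (L ≃ₐ[ℚ] L)} (hT : T ∈ orb v S) (hU : U ∈ orb v T) :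
    U ∈ orb v S := by
  obtain ⟨-, τ, hτ, rfl⟩ := mem_orb.1 hT
  obtain ⟨h1, τ', hτ', rfl⟩ := mem_orb.1 hU
  exact mem_orb.2 ⟨h1, τ' * τ, (stv v).mul_mem hτ' hτ, (tr_tr _ _ _).symm⟩

/-- The sum of the signs over an orbit. -/
def F (v : Set (L ≃ₐ[ℚ] L) → ℤ) (S : Set (L ≃ₐ[ℚ] L)) (σ : L ≃ₐ[ℚ] L) : ℤ :=
  ∑ T ∈ orb v S, sg T σ

theorem F_mul (S : Set (L ≃ₐ[ℚ] L)) (σ : L ≃ₐ[ℚ] L) {τ : L ≃ₐ[ℚ] L} (hτ : τ ∈ stv v) :
    F v S (σ * τ) = F v S σ := by
  classical
  unfold F
  refine Finset.sum_bij' (fun T _ => tr τ T) (fun T _ => tr τ⁻¹ T)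
    (fun T hT => tr_mem_orb hT hτ) (fun T hT => tr_mem_orb hT ((stv v).inv_mem hτ))
    (fun T _ => tr_inv_tr τ T) (fun T _ => tr_tr_inv τ T) fun T _ => ?_
  unfold sg
  by_cases h : σ * τ ∈ T
  · rw [if_pos h, if_pos (mem_tr τ σ T |>.2 h)]
  · rw [if_neg h, if_neg fun h' => h ((mem_tr τ σ T).1 h')]

include hH in
theorem F_cc (hvP : v ∈ Lam P) (S : Set (L ≃ₐ[ℚ] L)) (σ : L ≃ₐ[ℚ] L) :
    F v S (cc L * σ) = -F v S σ := by
  unfold F
  rw [← Finset.sum_neg_distrib]
  refine Finset.sum_congr rfl fun T hT => ?_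
  have h1 : IsHalf T := hH T (sup_subset hvP (mem_sup.2 (mem_orb.1 hT).1.ne'))
  have h2 := h1 σ
  unfold sg
  by_cases h : σ ∈ T
  · rw [if_pos h, if_neg (h2.1 h)]
  · rw [if_neg h, if_pos (by
      by_contra h3
      exact h (h2.2 h3)), neg_neg]

include hH hst in
/-- The sums are determined up to a sign. -/
theorem F_eq (j : L →+* ℂ) (hP : P.ncard ≤ 10) (hv : v ∈ Short (Lam P)) (σ : L ≃ₐ[ℚ] L) :
    ∃ ε : ℤ, (ε = 1 ∨ ε = -1) ∧ ∀ S, F v S σ = ε * F v S 1 := by
  rcases tr_eq_or hH hst j hP hv σ with h | h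
  · refine ⟨1, Or.inl rfl, fun S => ?_⟩
    have h1 := F_mul (v := v) S 1 (τ := σ) h
    rw [one_mul] at h1
    rw [h1, one_mul]
  · refine ⟨-1, Or.inr rfl, fun S => ?_⟩
    have h1 : cc L * σ ∈ stv v := fun T => by
      rw [← tr_tr, tr_cc_neg hH hst j hv.1, h, neg_neg]
    have h2 := F_mul (v := v) S 1 h1
    rw [one_mul, F_cc hH hv.1] at h2
    linarith

open Classical in
/-- The odd indicator function of an orbit. -/
def uO (v : Set (L ≃ₐ[ℚ] L) → ℤ) (S : Set (L ≃ₐ[ℚ] L)) : Set (L ≃ₐ[ℚ] L) → ℤ :=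
  fun T => (if T ∈ orb v S then 1 else 0) - (if Tᶜ ∈ orb v S then 1 else 0)

theorem uO_compl (S T : Set (L ≃ₐ[ℚ] L)) : uO v S Tᶜ = -uO v S T := by
  unfold uO
  rw [compl_compl]
  ring

theorem uO_mem (ho : ∀ S, v Sᶜ = -v S) {S T : Set (L ≃ₐ[ℚ] L)} (hT : T ∈ orb v S) :
    uO v S T = 1 := by
  unfold uO
  rw [if_pos hT, if_neg, sub_zero]
  intro h
  have h1 := (mem_orb.1 hT).1
  have h2 := (mem_orb.1 h).1
  rw [ho] at h2
  omega

theorem uO_notMem (ho : ∀ S, v Sᶜ = -v S) {S T : Set (L ≃ₐ[ℚ] L)} (hT : 0 < v T)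
    (hT' : T ∉ orb v S) : uO v S T = 0 := by
  unfold uO
  rw [if_neg hT', if_neg, sub_zero]
  intro h
  have h2 := (mem_orb.1 h).1
  rw [ho] at h2
  omega

theorem sum_uO (S : Set (L ≃ₐ[ℚ] L)) (σ : L ≃ₐ[ℚ] L) :
    ∑ T, uO v S T * sg T σ = 2 * F v S σ := by
  classical
  have h1 : ∀ T, uO v S T * sg T σ = (if T ∈ orb v S then sg T σ else 0) +
      (if Tᶜ ∈ orb v S then sg Tᶜ σ else 0) := by
    intro T
    unfold uO
    rw [sg_compl]
    by_cases h1 : T ∈ orb v S <;> by_cases h2 : Tᶜ ∈ orb v S <;> simp [h1, h2]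
  rw [Finset.sum_congr rfl fun T _ => h1 T, Finset.sum_add_distrib]
  have h3 : ∑ T : Set (L ≃ₐ[ℚ] L), (if Tᶜ ∈ orb v S then sg Tᶜ σ else 0) =
      ∑ T : Set (L ≃ₐ[ℚ] L), (if T ∈ orb v S then sg T σ else 0) :=
    Equiv.sum_comp (Equiv.mk compl compl (compl_compl ·) (compl_compl ·) :
      Set (L ≃ₐ[ℚ] L) ≃ Set (L ≃ₐ[ℚ] L)) fun T => if T ∈ orb v S then sg T σ else 0
  rw [h3]
  unfold F
  rw [Finset.sum_ite_mem, Finset.univ_inter]
  ring

include hH hst in
/-- Combinations of the indicator functions. -/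
theorem comb_mem (j : L →+* ℂ) (hP : P.ncard ≤ 10) (hv : v ∈ Short (Lam P)) {a b : ℤ}
    {S T : Set (L ≃ₐ[ℚ] L)} (h : a * F v S 1 + b * F v T 1 = 0) :
    a • uO v S + b • uO v T ∈ Lam P := by
  classical
  refine ⟨fun U hU => ?_, fun U => ?_, fun σ => ?_⟩
  · have h1 : ∀ S, uO v S U = 0 := by
      intro S
      unfold uO
      rw [if_neg, if_neg, sub_zero]
      · intro h1
        have h2 := sup_subset hv.1 (mem_sup.2 (mem_orb.1 h1).1.ne')
        apply hU
        have h3 := compl_mem hH hst j h2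
        rwa [compl_compl] at h3
      · intro h1
        exact hU (sup_subset hv.1 (mem_sup.2 (mem_orb.1 h1).1.ne'))
    change a * uO v S U + b * uO v T U = 0
    rw [h1, h1]
    ring
  · change a * uO v S Uᶜ + b * uO v T Uᶜ = -(a * uO v S U + b * uO v T U)
    rw [uO_compl, uO_compl]
    ring
  · obtain ⟨ε, -, hε⟩ := F_eq hH hst j hP hv σ
    have h1 : ∑ U, (a * uO v S U + b * uO v T U) * sg U σ =
        a * ∑ U, uO v S U * sg U σ + b * ∑ U, uO v T U * sg U σ := by
      rw [Finset.mul_sum, Finset.mul_sum, ← Finset.sum_add_distrib]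
      exact Finset.sum_congr rfl fun U _ => by ring
    change ∑ U, (a * uO v S U + b * uO v T U) * sg U σ = 0
    rw [h1, sum_uO, sum_uO, hε, hε]
    have h2 : a * (2 * (ε * F v S 1)) + b * (2 * (ε * F v T 1)) =
        2 * ε * (a * F v S 1 + b * F v T 1) := by ring
    rw [h2, h, mul_zero]

include hH hst in
/-- Nonzero relations have the same support. -/
theorem pos_sub (j : L →+* ℂ) (hP : P.ncard ≤ 10) (hv : v ∈ Lam P) (hv0 : v ≠ 0)
    {u : Set (L ≃ₐ[ℚ] L) → ℤ} (hu : u ∈ Lam P) (hu0 : u ≠ 0) {S : Set (L ≃ₐ[ℚ] L)}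
    (hS : v S ≠ 0) : u S ≠ 0 := by
  obtain ⟨a, b, hab, h⟩ := exists_dep ⟨1⟩ hP (fun S hS => compl_mem hH hst j hS) hv hu
  have hT : ∀ T, a * v T + b * u T = 0 := fun T => congrFun h T
  have ha : a ≠ 0 := by
    rintro rfl
    rcases hab with h1 | h1
    · exact h1 rfl
    · apply hu0
      funext T
      have h2 := hT T
      rw [zero_mul, zero_add] at h2
      exact (mul_eq_zero.1 h2).resolve_left h1
  intro h1
  have h2 := hT S
  rw [h1, mul_zero, add_zero] at h2
  rcases mul_eq_zero.1 h2 with h3 | h3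
  · exact ha h3
  · exact hS h3

include hH hst in
/-- The two orbits of a relation with five positive coefficients. -/
theorem two_orbits (j : L →+* ℂ) (hP : P.ncard ≤ 10) (hv : v ∈ Short (Lam P))
    (h5 : (pos v).card = 5) {S : Set (L ≃ₐ[ℚ] L)} (hS : S ∈ pos v) :
    F v S 1 ≠ 0 ∧ ∃ T ∈ pos v, T ∉ orb v S ∧ (orb v S).card + (orb v T).card = 5 ∧
      v S * F v S 1 + v T * F v T 1 = 0 ∧ ∀ U ∈ pos v, U ∈ orb v S ∨ U ∈ orb v T := by
  classical
  have ho := hv.1.2.1
  -- the sums are not zero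
  have hF : ∀ S ∈ pos v, F v S 1 ≠ 0 := by
    intro S hS h0
    have h1 : (1 : ℤ) • uO v S + (0 : ℤ) • uO v S ∈ Lam P :=
      comb_mem hH hst j hP hv (by rw [h0]; ring)
    rw [one_smul, zero_smul, add_zero] at h1
    have h2 : uO v S ≠ 0 := by
      intro h3
      have h4 := congrFun h3 S
      rw [uO_mem ho (self_mem_orb hS)] at h4
      exact one_ne_zero h4
    have h3 : orb v S = pos v := by
      refine Finset.Subset.antisymm (fun U hU => mem_pos.2 (mem_orb.1 hU).1) fun U hU => ?_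
      by_contra h4
      exact pos_sub hH hst j hP hv.1 hv.2.1 h1 h2 (mem_pos.1 hU).ne'
        (uO_notMem ho (mem_pos.1 hU) h4)
    obtain ⟨n, hn, hn', -⟩ := sum_sg (orb v S) 1
    have h4 : F v S 1 = (orb v S).card - 2 * n := hn'
    rw [h0, h3, h5] at h4
    omega
  refine ⟨hF S hS, ?_⟩
  obtain ⟨T, hT, hTS⟩ : ∃ T ∈ pos v, T ∉ orb v S := by
    by_contra hcon
    push Not at hcon
    have h3 : orb v S = pos v :=
      Finset.Subset.antisymm (fun U hU => mem_pos.2 (mem_orb.1 hU).1) hcon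
    have h4 := rel_pos hv.1 1
    rw [← h3] at h4
    have h6 : ∑ U ∈ orb v S, v U * sg U 1 = v S * F v S 1 := by
      unfold F
      rw [Finset.mul_sum]
      exact Finset.sum_congr rfl fun U hU => by rw [v_of_mem_orb hU]
    rw [h6] at h4
    rcases mul_eq_zero.1 h4 with h7 | h7
    · exact (mem_pos.1 hS).ne' h7
    · exact hF S hS h7
  have hST : S ∉ orb v T := fun h => hTS (mem_orb_symm hT h)
  have hdis : Disjoint (orb v S) (orb v T) := by
    rw [Finset.disjoint_left]
    intro U h1 h2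
    exact hTS (mem_orb_trans h1 (mem_orb_symm hT h2))
  have hu : F v T 1 • uO v S + (-F v S 1) • uO v T ∈ Lam P :=
    comb_mem hH hst j hP hv (by ring)
  have hu0 : F v T 1 • uO v S + (-F v S 1) • uO v T ≠ 0 := by
    intro h
    have h1 : F v T 1 * uO v S S + (-F v S 1) * uO v T S = 0 := congrFun h S
    rw [uO_mem ho (self_mem_orb hS), uO_notMem ho (mem_pos.1 hS) hST] at h1
    apply hF T hT
    linarith
  have hall : ∀ U ∈ pos v, U ∈ orb v S ∨ U ∈ orb v T := by
    intro U hU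
    by_contra hcon
    push Not at hcon
    refine pos_sub hH hst j hP hv.1 hv.2.1 hu hu0 (mem_pos.1 hU).ne' ?_
    change F v T 1 * uO v S U + (-F v S 1) * uO v T U = 0
    rw [uO_notMem ho (mem_pos.1 hU) hcon.1, uO_notMem ho (mem_pos.1 hU) hcon.2]
    ring
  have hpos : pos v = orb v S ∪ orb v T := by
    refine Finset.Subset.antisymm (fun U hU => Finset.mem_union.2 (hall U hU)) ?_
    intro U hU
    rcases Finset.mem_union.1 hU with h | h
    · exact mem_pos.2 (mem_orb.1 h).1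
    · exact mem_pos.2 (mem_orb.1 h).1
  refine ⟨T, hT, hTS, ?_, ?_, hall⟩
  · rw [← Finset.card_union_of_disjoint hdis, ← hpos, h5]
  · have h4 := rel_pos hv.1 1
    rw [hpos, Finset.sum_union hdis] at h4
    have h6 : ∀ S, ∑ U ∈ orb v S, v U * sg U 1 = v S * F v S 1 := by
      intro S
      unfold F
      rw [Finset.mul_sum]
      exact Finset.sum_congr rfl fun U hU => by rw [v_of_mem_orb hU]
    rw [h6, h6] at h4
    exact h4

include hH hst in
/-- The sum over an orbit with at least two elements is not extremal. -/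
theorem F_lt (j : L →+* ℂ) (hP : P.ncard ≤ 10) (hv : v ∈ Short (Lam P))
    {S : Set (L ≃ₐ[ℚ] L)} (h2 : 2 ≤ (orb v S).card) :
    F v S 1 ≠ (orb v S).card ∧ F v S 1 ≠ -((orb v S).card : ℤ) := by
  classical
  have key : ¬ (F v S 1 = (orb v S).card ∨ F v S 1 = -((orb v S).card : ℤ)) := by
    intro h
    obtain ⟨T, hT, U, hU, hne⟩ := Finset.one_lt_card.1 (show 1 < (orb v S).card by omega)
    apply hne
    ext σ
    obtain ⟨ε, hε, hF⟩ := F_eq hH hst j hP hv σ
    obtain ⟨n, hn, hn', h0, h1⟩ := sum_sg (orb v S) σ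
    have h3 : F v S σ = (orb v S).card - 2 * n := hn'
    rw [hF S] at h3
    have h4 : n = 0 ∨ n = (orb v S).card := by
      rcases h with h | h <;> rcases hε with h' | h' <;> rw [h, h'] at h3 <;> omega
    have h5 : sg T σ = sg U σ := by
      rcases h4 with h4 | h4
      · rw [h0 h4 T hT, h0 h4 U hU]
      · rw [h1 h4 T hT, h1 h4 U hU]
    unfold sg at h5
    by_cases h6 : σ ∈ T <;> by_cases h7 : σ ∈ U
    · exact ⟨fun _ => h7, fun _ => h6⟩
    · rw [if_pos h6, if_neg h7] at h5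
      norm_num at h5
    · rw [if_neg h6, if_pos h7] at h5
      norm_num at h5
    · exact ⟨fun h => absurd h h6, fun h => absurd h h7⟩
  exact ⟨fun h => key (Or.inl h), fun h => key (Or.inr h)⟩

include hH hst in
/-- **Short relations between at most ten half systems.** -/
theorem sum_le (j : L →+* ℂ) (hP : P.ncard ≤ 10) (hv : v ∈ Short (Lam P)) :
    ∑ S ∈ pos v, v S ≤ 6 := by
  classical
  have ho := hv.1.2.1
  have hcs := card_sup ho
  obtain ⟨h8, h8'⟩ := card_sup_ge (⟨1⟩ : Nonempty (L ≃ₐ[ℚ] L)) hv.1 hv.2.1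
  have h10 : (sup v).card ≤ 10 := by
    refine le_trans ?_ hP
    rw [← Set.ncard_coe_finset]
    exact Set.ncard_le_ncard (fun S hS => sup_subset hv.1 hS) (Set.toFinite P)
  rcases (show (pos v).card = 4 ∨ (pos v).card = 5 by omega) with h4 | h5
  · obtain ⟨m, hm, hm'⟩ := h8' (by omega)
    have h1 : m = 1 ∨ m = -1 := prim_dvd hv fun U => by
      by_cases h : U ∈ sup v
      · rcases hm' U h with h2 | h2
        · rw [h2]
        · rw [h2]
          exact (dvd_neg.2 dvd_rfl)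
      · rw [mem_sup, not_not] at h
        rw [h]
        exact dvd_zero m
    have h2 : ∀ S ∈ pos v, v S = 1 := by
      intro S hS
      have h3 := mem_pos.1 hS
      rcases hm' S (mem_sup.2 h3.ne') with h6 | h6 <;> omega
    rw [Finset.sum_congr rfl h2, Finset.sum_const, h4]
    norm_num
  · -- the orbits of the stabilizer
    have hfin : ∀ S T : Set (L ≃ₐ[ℚ] L), S ∈ pos v → T ∈ pos v → T ∉ orb v S →
        (orb v S).card = 4 → (orb v T).card = 1 → F v S 1 ≠ 0 →
        v S * F v S 1 + v T * F v T 1 = 0 → (∀ U ∈ pos v, U ∈ orb v S ∨ U ∈ orb v T) →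
        ∑ S ∈ pos v, v S ≤ 6 := by
      intro S T hS hT hTS hc4 hc1 hF0 hrel hall
      have hST : S ∉ orb v T := fun h => hTS (mem_orb_symm hT h)
      have hdis : Disjoint (orb v S) (orb v T) := by
        rw [Finset.disjoint_left]
        intro U h1 h2
        exact hTS (mem_orb_trans h1 (mem_orb_symm hT h2))
      obtain ⟨k1, k2⟩ := F_lt hH hst j hP hv (S := S) (by omega)
      obtain ⟨n, hn, hn', -⟩ := sum_sg (orb v S) 1
      obtain ⟨n', hn2, hn2', -⟩ := sum_sg (orb v T) 1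
      have e1 : F v S 1 = (orb v S).card - 2 * n := hn'
      have e2 : F v T 1 = (orb v T).card - 2 * n' := hn2'
      rw [hc4] at e1 k1 k2 hn
      rw [hc1] at e2 hn2
      have hvS := mem_pos.1 hS
      have hvT := mem_pos.1 hT
      have hb : v T = 2 * v S := by
        have e3 : F v S 1 = 2 ∨ F v S 1 = -2 := by
          push_cast at e1 k1 k2
          omega
        have e4 : F v T 1 = 1 ∨ F v T 1 = -1 := by
          push_cast at e2
          omega
        rcases e3 with e3 | e3 <;> rcases e4 with e4 | e4 <;> rw [e3, e4] at hrel <;> omega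
      have h1 : v S = 1 ∨ v S = -1 := prim_dvd hv fun U => by
        rcases lt_trichotomy (v U) 0 with h | h | h
        · have h2 : Uᶜ ∈ pos v := by
            rw [mem_pos, ho]
            omega
          have h3 : v S ∣ v Uᶜ := by
            rcases hall _ h2 with h4 | h4
            · rw [v_of_mem_orb h4]
            · rw [v_of_mem_orb h4, hb]
              exact dvd_mul_left _ _
          rw [ho] at h3
          exact (dvd_neg.1 h3)
        · rw [h]
          exact dvd_zero _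
        · rcases hall U (mem_pos.2 h) with h4 | h4
          · rw [v_of_mem_orb h4]
          · rw [v_of_mem_orb h4, hb]
            exact dvd_mul_left _ _
      have hpos : pos v = orb v S ∪ orb v T := by
        refine Finset.Subset.antisymm (fun U hU => Finset.mem_union.2 (hall U hU)) ?_
        intro U hU
        rcases Finset.mem_union.1 hU with h | h
        · exact mem_pos.2 (mem_orb.1 h).1
        · exact mem_pos.2 (mem_orb.1 h).1
      rw [hpos, Finset.sum_union hdis, Finset.sum_congr rfl fun U hU => v_of_mem_orb hU,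
        Finset.sum_congr rfl fun U (hU : U ∈ orb v T) => v_of_mem_orb hU, Finset.sum_const,
        Finset.sum_const, hc4, hc1, hb, nsmul_eq_mul, nsmul_eq_mul]
      push_cast
      omega
    obtain ⟨S, hS⟩ := Finset.card_pos.1 (show 0 < (pos v).card by omega)
    obtain ⟨hF0, T, hT, hTS, hsum, hrel, hall⟩ := two_orbits hH hst j hP hv h5 hS
    have hFT : F v T 1 ≠ 0 := (two_orbits hH hst j hP hv h5 hT).1
    have hST : S ∉ orb v T := fun h => hTS (mem_orb_symm hT h)
    have hcS : 0 < (orb v S).card := Finset.card_pos.2 ⟨S, self_mem_orb hS⟩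
    have hcT : 0 < (orb v T).card := Finset.card_pos.2 ⟨T, self_mem_orb hT⟩
    have hno2 : ∀ U, F v U 1 ≠ 0 → (orb v U).card ≠ 2 := by
      intro U hU h2
      obtain ⟨k1, k2⟩ := F_lt hH hst j hP hv (S := U) (by omega)
      obtain ⟨n, hn, hn', -⟩ := sum_sg (orb v U) 1
      have e1 : F v U 1 = (orb v U).card - 2 * n := hn'
      rw [h2] at e1 k1 k2 hn
      push_cast at e1 k1 k2
      omega
    have h21 := hno2 S hF0
    have h22 := hno2 T hFT
    rcases (show (orb v S).card = 4 ∨ (orb v S).card = 1 by omega) with h4 | h1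
    · exact hfin S T hS hT hTS h4 (by omega) hF0 hrel hall
    · exact hfin T S hT hS hST (by omega) h1 hFT (by rw [add_comm]; exact hrel)
        fun U hU => (hall U hU).symm

include hH hst in
/-- **Short relations between at most ten half systems** belong to Weil classes of imaginary
quadratic fields on abelian fourfolds and sixfolds. -/
theorem short_small (j : L →+* ℂ) (hP : P.ncard ≤ 10) (hv : v ∈ Short (Lam P)) :
    finrank ℚ (fK (stv v)) = 2 ∧ Fintype.card (Orb (stv v) (xV v)) ≤ 6 := by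
  refine ⟨finrank_two hH hst j hP hv, ?_⟩
  have h1 := card_orb_eq v
  have h2 := sum_le hH hst j hP hv
  omega

end gal

end

end Pool.Agent.K4H34.DB
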